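import Pool.Agent.H926Z.WK.Rec

/-! Collapsing well-orders and cardinal arithmetic inside a countable transitive model. -/

set_option linter.unusedSectionVars false
set_option linter.unreachableTactic false
set_option linter.unusedTactic false

namespace Pool.Agent.H926Z.WK

open CohenE ZFSet

variable {M : Set ZFSet.{0}} [hM : Fact (CTM M)]

theorem EqIn.le {W : Set ZFSet.{0}} {a b : ZFSet.{0}} (h : EqIn W a b) : LeIn W a b := by
  obtain ⟨f, hf, h1, -⟩ := h
  exact ⟨f, hf, h1⟩

theorem EqIn.ge {A B : M} (h : EqIn M A.1 B.1) : LeIn M B.1 A.1 := by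
  obtain ⟨f, hf, ⟨h1, -⟩, h3⟩ := h
  refine le_of_rel (Q := fun b a => (mpair a b).1 ∈ (⟨f, hf⟩ : M).1) (by repeat' (first | with_reducible apply D.not | with_reducible apply D.and | with_reducible apply D.or | with_reducible apply D.iff | with_reducible apply D.ex | with_reducible apply D.all | with_reducible apply D.imp | with_reducible apply D.subset | with_reducible apply D.mem | with_reducible apply D.eq | with_reducible apply F.pair | with_reducible apply F.up | with_reducible apply F.succ  | with_reducible exact F.const _ | exact F.var 0 | exact F.var 1 | exact F.var 2 | exact F.var 3 | exact F.var 4 | exact F.var 5 | exact F.var 6 | exact F.var 7 | exact F.var 8 | exact F.var 9 | exact F.var 10 | exact F.var 11 | exact F.var 12 | exact F.var 13)) (fun b hb => ?_)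
    fun b b' a _ _ _ h h' => Subtype.ext (func_uniq h1 h h')
  obtain ⟨a, ha⟩ := h3 _ hb
  exact ⟨el A (func_mem h1 ha).1, (func_mem h1 ha).1, ha⟩

/-- range of a relation -/
noncomputable def mran (f : M) : M := msep (ecU (ecU f)) fun w => ∃ b : M, (mpair b w).1 ∈ f.1

theorem mem_mran (f w : M) : w.1 ∈ (mran f).1 ↔ ∃ b : M, (mpair b w).1 ∈ f.1 := by
  have h : D M (fun p : M × M => ∃ b : M, (mpair b p.2).1 ∈ p.1.1) := by repeat' (first | with_reducible apply D.not | with_reducible apply D.and | with_reducible apply D.or | with_reducible apply D.iff | with_reducible apply D.ex | with_reducible apply D.all | with_reducible apply D.imp | with_reducible apply D.subset | with_reducible apply D.mem | with_reducible apply D.eq | with_reducible apply F.pair | with_reducible apply F.up | with_reducible apply F.succ  | with_reducible exact F.const _ | exact F.var 0 | exact F.var 1 | exact F.var 2 | exact F.var 3 | exact F.var 4 | exact F.var 5 | exact F.var 6 | exact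 F.var 7 | exact F.var 8 | exact F.var 9 | exact F.var 10 | exact F.var 11 | exact F.var 12 | exact F.var 13)
  refine (mem_msep (Q := fun (f : M) w => ∃ b : M, (mpair b w).1 ∈ f.1) h f _ w).trans
    ⟨fun h => h.2, fun ⟨b, hb⟩ => ⟨?_, b, hb⟩⟩
  refine (mem_ecU _ _).2 ⟨mup b w, (mem_mup _ _ _).2 (Or.inr rfl), (mem_ecU _ _).2
    ⟨mpair b w, ?_, hb⟩⟩
  simp [mpair, mup, ZFSet.pair]

theorem f_mran : F M (fun f : M => mran f) :=
  ofExt (Q := fun f w => ∃ b : M, (mpair b w).1 ∈ f.1) (by repeat' (first | with_reducible apply D.not | with_reducible apply D.and | with_reducible apply D.or | with_reducible apply D.iff | with_reducible apply D.ex | with_reducible apply D.all | with_reducible apply D.imp | with_reducible apply D.subset | with_reducible apply D.mem | with_reducible apply D.eq | with_reducible apply F.pair | with_reducible apply F.up | with_reducible apply F.succ  | with_reducible exact F.const _ | exact F.var 0 | exact F.var 1 | exact F.var 2 | exact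 F.var 3 | exact F.var 4 | exact F.var 5 | exact F.var 6 | exact F.var 7 | exact F.var 8 | exact F.var 9 | exact F.var 10 | exact F.var 11 | exact F.var 12 | exact F.var 13)) mem_mran

theorem collapse {L : Type 1} [LinearOrder L] [WellFoundedLT L] (A : M) (key : M → L)
    (hinj : ∀ a a' : M, a.1 ∈ A.1 → a'.1 ∈ A.1 → key a = key a' → a = a')
    (hD : D M (fun p : M × M => p.1.1 ∈ A.1 ∧ p.2.1 ∈ A.1 ∧ key p.1 < key p.2)) :
    ∃ θ : M, θ.1.IsOrdinal ∧ EqIn M A.1 θ.1 ∧ ∀ z : M, z.1 ∈ θ.1 → ∃ a : M, a.1 ∈ A.1 ∧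
      ∀ S : M, (∀ b : M, b.1 ∈ A.1 → key b < key a → b.1 ∈ S.1) → LeIn M z.1 S.1 := by
  let r : M → M → Prop := fun b a => b.1 ∈ A.1 ∧ a.1 ∈ A.1 ∧ key b < key a
  have hwf : WellFounded r :=
    Subrelation.wf (r := InvImage (· < ·) key) (fun h => h.2.2) (InvImage.wf key wellFounded_lt)
  have hr : D M (fun p : M × M => r p.1 p.2) := hD
  obtain ⟨G, hG, hG'⟩ := wfrec hwf hr (fun a => ⟨mins a A, (mem_mins _ _ _).2 (Or.inl rfl),
    fun c _ b hb => (mem_mins _ _ _).2 (Or.inr hb.1)⟩) (Φ := fun f _ => mran f)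
    (fapp1 f_mran (F.var 1))
  have hm : ∀ a z : M, z.1 ∈ (G a).1 ↔ ∃ b, r b a ∧ z = G b := by
    intro a z
    obtain ⟨f, hf, e⟩ := hG' a
    rw [e, mem_mran]
    constructor
    · rintro ⟨b, hb⟩
      obtain ⟨b', hb', e'⟩ := (hf _).1 hb
      exact ⟨b', hb', (mpair_inj.1 e').2⟩
    · rintro ⟨b, hb, rfl⟩
      exact ⟨b, (hf _).2 ⟨b, hb, rfl⟩⟩
  have hord : ∀ a, (G a).1.IsOrdinal := by
    intro a
    induction a using hwf.induction with
    | _ a ih =>
      refine isOrdinal_iff_forall_mem_isOrdinal.2 ⟨fun y hy z hz => ?_, fun y hy => ?_⟩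
      · obtain ⟨b, hb, e⟩ := (hm a (el _ hy)).1 hy
        have hz' : z ∈ (G b).1 := by rw [← e]; exact hz
        obtain ⟨c, hc, e'⟩ := (hm b (el _ hz')).1 hz'
        exact (hm a (el _ hz')).2 ⟨c, ⟨hc.1, hb.2.1, hc.2.2.trans hb.2.2⟩, e'⟩
      · obtain ⟨b, hb, e⟩ := (hm a (el _ hy)).1 hy
        have : y = (G b).1 := congrArg Subtype.val e
        rw [this]; exact ih b hb
  have hGinj : ∀ a a' : M, a.1 ∈ A.1 → a'.1 ∈ A.1 → G a = G a' → a = a' := by
    intro a a' ha ha' e
    rcases lt_trichotomy (key a) (key a') with h | h | h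
    · have := (hm a' (G a)).2 ⟨a, ⟨ha, ha', h⟩, rfl⟩
      rw [e] at this
      exact absurd this (mem_irrefl _)
    · exact hinj a a' ha ha' h
    · have := (hm a (G a')).2 ⟨a', ⟨ha', ha, h⟩, rfl⟩
      rw [e] at this
      exact absurd this (mem_irrefl _)
  obtain ⟨θ, hθ⟩ := image1 hG A
  refine ⟨θ, isOrdinal_iff_forall_mem_isOrdinal.2 ⟨fun y hy z hz => ?_, fun y hy => ?_⟩, ?_,
    fun z hz => ?_⟩
  · obtain ⟨b, hb, e⟩ := (hθ (el _ hy)).1 hy
    have hz' : z ∈ (G b).1 := by rw [← e]; exact hz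
    obtain ⟨c, hc, e'⟩ := (hm b (el _ hz')).1 hz'
    exact (hθ (el _ hz')).2 ⟨c, hc.1, e'⟩
  · obtain ⟨b, hb, e⟩ := (hθ (el _ hy)).1 hy
    have : y = (G b).1 := congrArg Subtype.val e
    rw [this]; exact hord b
  · obtain ⟨f, hf, hf'⟩ := exists_fn (A := A) (B := θ) (Q := fun a z => z = G a) hG
      fun a ha => ⟨G a, (hθ _).2 ⟨a, ha, rfl⟩, rfl⟩
    refine ⟨f, f.2, ⟨hf, fun x y z hx hy => ?_⟩, fun z hz => ?_⟩
    · have h1 := func_mem hf hx
      have h2 := func_mem hf hy
      exact congrArg Subtype.val (hGinj (el A h1.1) (el A h2.1) h1.1 h2.1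
        ((hf' (el A h1.1) (el θ h1.2) hx).symm.trans (hf' (el A h2.1) (el θ h1.2) hy)))
    · obtain ⟨a, ha, e⟩ := (hθ (el _ hz)).1 hz
      obtain ⟨w, hw, -⟩ := hf.2 _ ha
      have := hf' a (el θ (func_mem hf hw).2) hw
      have e2 : w = z := congrArg Subtype.val (this.trans e.symm)
      exact ⟨a, e2 ▸ hw⟩
  · obtain ⟨a, ha, rfl⟩ := (hθ z).1 hz
    refine ⟨a, ha, fun S hS => le_of_rel (Q := fun z b => z = G b) (by repeat' (first | with_reducible apply fapp1 hG | with_reducible apply D.not | with_reducible apply D.and | with_reducible apply D.or | with_reducible apply D.iff | with_reducible apply D.ex | with_reducible apply D.all | with_reducible apply D.imp | with_reducible apply D.subset | with_reducible apply D.mem | with_reducible apply D.eq | with_reducible apply F.pair | with_reducible apply F.up | with_reducible apply F.succ  | with_reducible exact F.const _ | exact F.var 0 | exact F.var 1 | exact F.var 2 | exact F.var 3 | exact F.var 4 | exact F.var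 5 | exact F.var 6 | exact F.var 7 | exact F.var 8 | exact F.var 9 | exact F.var 10 | exact F.var 11 | exact F.var 12 | exact F.var 13))
      (fun z hz => ?_) fun _ _ _ _ _ _ h h' => h.trans h'.symm⟩
    obtain ⟨b, hb, e⟩ := (hm a z).1 hz
    exact ⟨b, hS b hb.1 hb.2.2, e⟩

open Classical in
/-- the Gödel key of a pair of ordinals -/
noncomputable def gkey (z : M) : Ordinal.{0} ×ₗ (Ordinal.{0} ×ₗ Ordinal.{0}) :=
  if h : ∃ p : M × M, z = mpair p.1 p.2 then
    toLex (max h.choose.1.1.rank h.choose.2.1.rank, toLex (h.choose.1.1.rank, h.choose.2.1.rank))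
  else toLex (0, toLex (0, 0))

theorem gkey_pair (m n : M) :
    gkey (mpair m n) = toLex (max m.1.rank n.1.rank, toLex (m.1.rank, n.1.rank)) := by
  have h : ∃ p : M × M, mpair m n = mpair p.1 p.2 := ⟨(m, n), rfl⟩
  obtain ⟨e1, e2⟩ := mpair_inj.1 h.choose_spec
  rw [gkey, dif_pos h, ← e1, ← e2]

theorem godel {κ A : M} (hκ : κ.1.IsOrdinal) (hA : A.1 ⊆ (mprod κ κ).1)
    (small : ∀ α : M, α.1 ∈ κ.1 → ∀ z : M, z.1.IsOrdinal →
      LeIn M z.1 (mprod (msucc α) (msucc α)).1 → z.1 ∈ κ.1) :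
    ∃ θ : M, θ.1.IsOrdinal ∧ θ.1 ⊆ κ.1 ∧ EqIn M A.1 θ.1 := by
  have hD : D M (fun p : M × M => p.1.1 ∈ A.1 ∧ p.2.1 ∈ A.1 ∧ ∃ m n m' n' : M,
      p.1 = mpair m n ∧ p.2 = mpair m' n' ∧
      (((m.1 ∈ m'.1 ∨ m.1 ∈ n'.1) ∧ (n.1 ∈ m'.1 ∨ n.1 ∈ n'.1)) ∨
        (¬ ((m'.1 ∈ m.1 ∨ m'.1 ∈ n.1) ∧ (n'.1 ∈ m.1 ∨ n'.1 ∈ n.1)) ∧
          (m.1 ∈ m'.1 ∨ (m = m' ∧ n.1 ∈ n'.1))))) := by repeat' (first | with_reducible apply D.not | with_reducible apply D.and | with_reducible apply D.or | with_reducible apply D.iff | with_reducible apply D.ex | with_reducible apply D.all | with_reducible apply D.imp | with_reducible apply D.subset | with_reducible apply D.mem | with_reducible apply D.eq | with_reducible apply F.pair | with_reducible apply F.up | with_reducible apply F.succ  | with_reducible exact F.const _ | exact F.var 0 | exact F.var 1 | exact F.var 2 | exact F.var 3 | exact F.var 4 | exact F.var 5 | exact F.var 6 | exact F.var 7 | exact F.var 8 | exact F.var 9 | exact F.var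 10 | exact F.var 11 | exact F.var 12 | exact F.var 13)
  obtain ⟨θ, h1, h2, h3⟩ := collapse A gkey (fun a a' ha ha' e => by
      obtain ⟨m, n, hm, hn, rfl⟩ := (mem_mprod _ _ _).1 (hA ha)
      obtain ⟨m', n', hm', hn', rfl⟩ := (mem_mprod _ _ _).1 (hA ha')
      rw [gkey_pair, gkey_pair] at e
      simp only [toLex_inj, Prod.mk.injEq] at e
      rw [Subtype.ext (((hκ.mem hm).rank_inj (hκ.mem hm')).1 e.2.1),
        Subtype.ext (((hκ.mem hn).rank_inj (hκ.mem hn')).1 e.2.2)])
    (hD.congr fun p => by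
      refine and_congr_right fun h1 => and_congr_right fun h2 => ?_
      obtain ⟨m, n, hm, hn, e⟩ := (mem_mprod _ _ _).1 (hA h1)
      obtain ⟨m', n', hm', hn', e'⟩ := (mem_mprod _ _ _).1 (hA h2)
      have om := hκ.mem hm
      have on := hκ.mem hn
      have om' := hκ.mem hm'
      have on' := hκ.mem hn'
      have key : gkey (mpair m n) < gkey (mpair m' n') ↔
          (((m.1 ∈ m'.1 ∨ m.1 ∈ n'.1) ∧ (n.1 ∈ m'.1 ∨ n.1 ∈ n'.1)) ∨
          (¬ ((m'.1 ∈ m.1 ∨ m'.1 ∈ n.1) ∧ (n'.1 ∈ m.1 ∨ n'.1 ∈ n.1)) ∧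
            (m.1 ∈ m'.1 ∨ (m = m' ∧ n.1 ∈ n'.1)))) := by
        rw [gkey_pair, gkey_pair, Prod.Lex.toLex_lt_toLex, Prod.Lex.toLex_lt_toLex,
          ← om.rank_lt_iff_mem om', ← om.rank_lt_iff_mem on', ← on.rank_lt_iff_mem om',
          ← on.rank_lt_iff_mem on', ← om'.rank_lt_iff_mem om, ← om'.rank_lt_iff_mem on,
          ← on'.rank_lt_iff_mem om, ← on'.rank_lt_iff_mem on, Subtype.ext_iff, ← om.rank_inj om',
          ← lt_max_iff, ← lt_max_iff, ← lt_max_iff, ← lt_max_iff, ← max_lt_iff, ← max_lt_iff]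
        simp only
        constructor
        · rintro (h | ⟨h, h'⟩)
          · exact Or.inl h
          · exact Or.inr ⟨h.not_gt, h'⟩
        · rintro (h | ⟨h, h'⟩)
          · exact Or.inl h
          · rcases (not_lt.1 h).eq_or_lt with h | h
            · exact Or.inr ⟨h, h'⟩
            · exact Or.inl h
      rw [e, e', key]
      constructor
      · exact fun h => ⟨m, n, m', n', rfl, rfl, h⟩
      · rintro ⟨a, b, c, d, e1, e2, h⟩
        obtain ⟨rfl, rfl⟩ := mpair_inj.1 e1
        obtain ⟨rfl, rfl⟩ := mpair_inj.1 e2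
        exact h)
  refine ⟨θ, h1, fun z hz => ?_, h2⟩
  obtain ⟨a, ha, hS⟩ := h3 (el θ hz) hz
  obtain ⟨m, n, hm, hn, rfl⟩ := (mem_mprod _ _ _).1 (hA ha)
  obtain ⟨α, hα, hα'⟩ : ∃ α : M, α.1 ∈ κ.1 ∧ max m.1.rank n.1.rank = α.1.rank := by
    rcases le_total m.1.rank n.1.rank with h | h
    · exact ⟨n, hn, max_eq_right h⟩
    · exact ⟨m, hm, max_eq_left h⟩
  refine small α hα (el θ hz) (h1.mem hz) (hS _ fun b hb hlt => ?_)
  obtain ⟨m', n', hm', hn', rfl⟩ := (mem_mprod _ _ _).1 (hA hb)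
  rw [gkey_pair, gkey_pair, Prod.Lex.toLex_lt_toLex, hα'] at hlt
  have hle : max m'.1.rank n'.1.rank ≤ α.1.rank := by
    rcases hlt with h | h
    · exact h.le
    · exact h.1.le
  have aux : ∀ u : M, u.1 ∈ κ.1 → u.1.rank ≤ α.1.rank → u.1 ∈ (msucc α).1 := by
    intro u hu h
    show u.1 ∈ insert α.1 α.1
    rw [ZFSet.mem_insert_iff, ← (hκ.mem hu).subset_iff_eq_or_mem (hκ.mem hα),
      ← (hκ.mem hu).rank_le_iff_subset (hκ.mem hα)]
    exact h
  exact (pair_mem_mprod _ _ _ _).2 ⟨aux _ hm' ((le_max_left _ _).trans hle),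
    aux _ hn' ((le_max_right _ _).trans hle)⟩

theorem om_eq : (om : M).1 = omegaZ := by
  apply ZFSet.ext
  intro z
  rw [omegaZ, mem_range]
  constructor
  · intro hz
    obtain ⟨n, e⟩ := (mem_om (el om hz)).1 hz
    exact ⟨n, (congrArg Subtype.val e).symm⟩
  · rintro ⟨n, rfl⟩
    exact (mem_om (mnat n)).2 ⟨n, rfl⟩

theorem nat_ord (n : ℕ) : (nat n).IsOrdinal := by
  induction n with
  | zero => exact isOrdinal_empty
  | succ n ih => exact isOrdinal_succ ih

theorem om_ord : (om : M).1.IsOrdinal := by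
  rw [om_eq]
  refine isOrdinal_iff_forall_mem_isOrdinal.2 ⟨fun y hy z hz => ?_, fun y hy => ?_⟩
  · obtain ⟨n, rfl⟩ := mem_range.1 hy
    obtain ⟨m, -, rfl⟩ := (mem_nat n z).1 hz
    exact mem_range.2 ⟨m, rfl⟩
  · obtain ⟨n, rfl⟩ := mem_range.1 hy
    exact nat_ord n

theorem om_prod : LeIn M (mprod (om : M) om).1 (om : M).1 := by
  obtain ⟨θ, -, h2, h3⟩ := godel (A := mprod (om : M) om) om_ord (fun _ h => h)
    (fun α hα z hz hle => by
      by_contra hcon
      obtain ⟨n, rfl⟩ := (mem_om α).1 hα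
      obtain ⟨f, f1, f2, -⟩ := ((le_of_subset ((hz.notMem_iff_subset om_ord).1 hcon)).trans hle).dest
      have : ∀ k : ℕ, ∃ p : Fin (n + 1) × Fin (n + 1),
          (mpair (mnat k) (mpair (mnat p.1) (mnat p.2))).1 ∈ f.1 := fun k => by
        obtain ⟨b, hb, h⟩ := f1 (mnat k) ((mem_om _).2 ⟨k, rfl⟩)
        obtain ⟨x, y, hx, hy, rfl⟩ := (mem_mprod _ _ _).1 hb
        obtain ⟨i, hi, ei⟩ := (mem_nat (n + 1) _).1 hx
        obtain ⟨j, hj, ej⟩ := (mem_nat (n + 1) _).1 hy
        obtain rfl : x = mnat i := Subtype.ext ei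
        obtain rfl : y = mnat j := Subtype.ext ej
        exact ⟨(⟨i, hi⟩, ⟨j, hj⟩), h⟩
      choose g hg using this
      refine not_injective_infinite_finite g fun k k' e => ?_
      have h1 := hg k
      rw [e] at h1
      exact mnat_inj (f2 _ _ _ h1 (hg k')))
  exact h3.le.trans (le_of_subset h2)

theorem cnd_le : LeIn M (cnd : M).1 (om : M).1 := by
  obtain ⟨e, he, -, he'⟩ := exists_enum (M := M)
  refine le_of_rel (Q := fun s n => s = e n) (by repeat' (first | with_reducible apply fapp1 he | with_reducible apply D.not | with_reducible apply D.and | with_reducible apply D.or | with_reducible apply D.iff | with_reducible apply D.ex | with_reducible apply D.all | with_reducible apply D.imp | with_reducible apply D.subset | with_reducible apply D.mem | with_reducible apply D.eq | with_reducible apply F.pair | with_reducible apply F.up | with_reducible apply F.succ  | with_reducible exact F.const _ | exact F.var 0 | exact F.var 1 | exact F.var 2 | exact F.var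 3 | exact F.var 4 | exact F.var 5 | exact F.var 6 | exact F.var 7 | exact F.var 8 | exact F.var 9 | exact F.var 10 | exact F.var 11 | exact F.var 12 | exact F.var 13)) (fun s hs => ?_)
    fun _ _ _ _ _ _ h h' => h.trans h'.symm
  obtain ⟨n, hn⟩ := he' s ((mem_cnd s).1 hs)
  exact ⟨mnat n, (mem_om _).2 ⟨n, rfl⟩, hn.symm⟩

theorem cnd_om : LeIn M (mprod (cnd : M) om).1 (om : M).1 :=
  (cnd_le.prod (le_of_subset fun _ h => h)).trans om_prod

theorem le_succ {α : M} (h : LeIn M α.1 (om : M).1) : LeIn M (msucc α).1 (om : M).1 := by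
  obtain ⟨f, f1, f2, -⟩ := h.dest
  refine LeIn.trans (le_of_rel (Q := fun β z => (∃ n : M, (mpair β n).1 ∈ f.1 ∧
    z = mpair (mnat 0) n) ∨ (β = α ∧ z = mpair (mnat 1) (mnat 0))) (by repeat' (first | with_reducible apply D.not | with_reducible apply D.and | with_reducible apply D.or | with_reducible apply D.iff | with_reducible apply D.ex | with_reducible apply D.all | with_reducible apply D.imp | with_reducible apply D.subset | with_reducible apply D.mem | with_reducible apply D.eq | with_reducible apply F.pair | with_reducible apply F.up | with_reducible apply F.succ  | with_reducible exact F.const _ | exact F.var 0 | exact F.var 1 | exact F.var 2 | exact F.var 3 | exact F.var 4 | exact F.var 5 | exact F.var 6 | exact F.var 7 | exact F.var 8 | exact F.var 9 | exact F.var 10 | exact F.var 11 | exact F.var 12 | exact F.var 13)) (fun β hβ => ?_) ?_)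
    om_prod
  · rcases ZFSet.mem_insert_iff.1 hβ with h | h
    · exact ⟨_, (pair_mem_mprod _ _ _ _).2 ⟨(mem_om _).2 ⟨1, rfl⟩, (mem_om _).2 ⟨0, rfl⟩⟩,
        Or.inr ⟨Subtype.ext h, rfl⟩⟩
    · obtain ⟨n, hn, h'⟩ := f1 β h
      exact ⟨_, (pair_mem_mprod _ _ _ _).2 ⟨(mem_om _).2 ⟨0, rfl⟩, hn⟩, Or.inl ⟨n, h', rfl⟩⟩
  · rintro β β' z - - - (⟨n, h1, rfl⟩ | ⟨rfl, rfl⟩) (⟨n', h2, e⟩ | ⟨rfl, e⟩)
    · obtain ⟨-, rfl⟩ := mpair_inj.1 e
      exact f2 _ _ _ h1 h2
    · exact absurd (mnat_inj (mpair_inj.1 e).1) (by omega)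
    · exact absurd (mnat_inj (mpair_inj.1 e).1) (by omega)
    · rfl

theorem IsSuccIn.mem_of_le {μ κ z : M} (h : IsSuccIn M μ.1 κ.1) (hz : z.1.IsOrdinal)
    (hle : LeIn M z.1 μ.1) : z.1 ∈ κ.1 := by
  by_contra hcon
  exact h.2.2.1 ((le_of_subset ((hz.notMem_iff_subset h.2.1).1 hcon)).trans hle)

theorem godel1 {κ A : M} (h : IsSuccIn M (om : M).1 κ.1) (hA : A.1 ⊆ (mprod κ κ).1) :
    ∃ θ : M, θ.1.IsOrdinal ∧ θ.1 ⊆ κ.1 ∧ EqIn M A.1 θ.1 :=
  godel h.2.1 hA fun α hα _ hz hle => h.mem_of_le hz (hle.trans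
    (((le_succ (h.2.2.2 _ hα)).prod (le_succ (h.2.2.2 _ hα))).trans om_prod))

theorem cnd_kappa {κ : M} (h : IsSuccIn M (om : M).1 κ.1) : LeIn M (mprod cnd κ).1 κ.1 := by
  obtain ⟨θ, -, h2, h3⟩ := godel1 h (A := mprod κ κ) fun _ h => h
  have h4 : (om : M).1 ∈ κ.1 := h.mem_of_le om_ord (le_of_subset fun _ h => h)
  exact ((cnd_le.trans (le_of_subset (h.2.1.subset_of_mem h4))).prod
    (le_of_subset fun _ h => h)).trans (h3.le.trans (le_of_subset h2))

theorem le_of_not_le {κ lam I : M} (h : IsSuccIn M κ.1 lam.1) (hI : I.1 ⊆ lam.1)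
    (hn : ¬ LeIn M I.1 κ.1) : LeIn M lam.1 I.1 := by
  have hD : D M (fun p : M × M => p.1.1 ∈ I.1 ∧ p.2.1 ∈ I.1 ∧ p.1.1 ∈ p.2.1) := by repeat' (first | with_reducible apply D.not | with_reducible apply D.and | with_reducible apply D.or | with_reducible apply D.iff | with_reducible apply D.ex | with_reducible apply D.all | with_reducible apply D.imp | with_reducible apply D.subset | with_reducible apply D.mem | with_reducible apply D.eq | with_reducible apply F.pair | with_reducible apply F.up | with_reducible apply F.succ  | with_reducible exact F.const _ | exact F.var 0 | exact F.var 1 | exact F.var 2 | exact F.var 3 | exact F.var 4 | exact F.var 5 | exact F.var 6 | exact F.var 7 | exact F.var 8 | exact F.var 9 | exact F.var 10 | exact F.var 11 | exact F.var 12 | exact F.var 13)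
  obtain ⟨θ, h1, h2, -⟩ := collapse I (fun a => a.1.rank)
    (fun a a' ha ha' e => Subtype.ext
      (((h.2.1.mem (hI ha)).rank_inj (h.2.1.mem (hI ha'))).1 e))
    (hD.congr fun p => and_congr_right fun h1 => and_congr_right fun h2 =>
      (h.2.1.mem (hI h1)).rank_lt_iff_mem (h.2.1.mem (hI h2)))
  rcases h1.mem_or_subset h.2.1 with h3 | h3
  · exact absurd (h2.le.trans (h.2.2.2 _ h3)) hn
  · exact (le_of_subset h3).trans h2.ge

theorem exists_succ {μ lam' : M} (h : lam'.1.IsOrdinal) (hn : ¬ LeIn M lam'.1 μ.1) :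
    ∃ lam : M, IsSuccIn M μ.1 lam.1 ∧ lam.1 ⊆ lam'.1 := by
  obtain ⟨l, ⟨h1, h2, h3⟩, hmin⟩ := mem_wf.has_min
    {α : ZFSet.{0} | α ∈ M ∧ α.IsOrdinal ∧ ¬ LeIn M α μ.1} ⟨lam'.1, lam'.2, h, hn⟩
  refine ⟨⟨l, h1⟩, ⟨h1, h2, h3, fun α hα => ?_⟩, ?_⟩
  · by_contra hcon
    exact hmin α ⟨hM.out.trans _ h1 _ hα, h2.mem hα, hcon⟩ hα
  · exact (h.notMem_iff_subset h2).1 (hmin _ ⟨lam'.2, h, hn⟩)

end Pool.Agent.H926Z.WK
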