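import Pool.Agent.Helper212.CohenE.Defs

/-!
# The weak Kurepa hypothesis inside a transitive class `W` of sets

All notions are relativised to `W`: every function, tree, branch and cardinal is required to be an
element of `W`.
-/

namespace Pool.Agent.H926Z.WK

open ZFSet

/-- The set `ω` of von Neumann natural numbers. -/
noncomputable def omegaZ : ZFSet.{0} := ZFSet.range CohenE.nat

/-- `f` is an injective function from `a` to `b`. -/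
def InjFn (f a b : ZFSet.{0}) : Prop :=
  IsFunc a b f ∧ ∀ x y z, pair x z ∈ f → pair y z ∈ f → x = y

/-- `W ⊨ |a| ≤ |b|`. -/
def LeIn (W : Set ZFSet.{0}) (a b : ZFSet.{0}) : Prop := ∃ f ∈ W, InjFn f a b

/-- `W ⊨ |a| = |b|`. -/
def EqIn (W : Set ZFSet.{0}) (a b : ZFSet.{0}) : Prop :=
  ∃ f ∈ W, InjFn f a b ∧ ∀ z ∈ b, ∃ x, pair x z ∈ f

/-- `W ⊨ κ = μ⁺`: `κ` is the least ordinal that does not inject into `μ`. -/
def IsSuccIn (W : Set ZFSet.{0}) (μ κ : ZFSet.{0}) : Prop :=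
  κ ∈ W ∧ κ.IsOrdinal ∧ ¬ LeIn W κ μ ∧ ∀ α ∈ κ, LeIn W α μ

/-- `R` is a strict partial order on `T`. -/
def StrictPO (T R : ZFSet.{0}) : Prop :=
  R ⊆ prod T T ∧ (∀ u, pair u u ∉ R) ∧ ∀ u v w, pair u v ∈ R → pair v w ∈ R → pair u w ∈ R

/-- In `W`, the predecessors of `t` are well-ordered of order type `α`: some `f ∈ W` is an order
isomorphism from the ordinal `α` onto `{u : u R t}`. -/
def HtIn (W : Set ZFSet.{0}) (T R t α : ZFSet.{0}) : Prop :=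
  α.IsOrdinal ∧ ∃ f ∈ W, IsFunc α T f ∧ (∀ u, pair u t ∈ R ↔ ∃ β, pair β u ∈ f) ∧
    ∀ β γ u v, pair β u ∈ f → pair γ v ∈ f → (β ∈ γ ↔ pair u v ∈ R)

/-- `b` is a cofinal branch of the tree `(T,R)` of height `κ`: a linearly ordered subset meeting
every level. -/
def BranchIn (W : Set ZFSet.{0}) (T R κ b : ZFSet.{0}) : Prop :=
  b ⊆ T ∧ (∀ u ∈ b, ∀ v ∈ b, u = v ∨ pair u v ∈ R ∨ pair v u ∈ R) ∧
    ∀ α ∈ κ, ∃ t ∈ b, HtIn W T R t α

/-- `W ⊨ wKH(ω₁)`: with `κ = ω₁` and `lam = ω₂` computed in `W`, there is in `W` a tree of height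
`ω₁` and cardinality `ω₁` with at least `ω₂` cofinal branches. -/
def WKH (W : Set ZFSet.{0}) : Prop :=
  ∃ κ lam, IsSuccIn W omegaZ κ ∧ IsSuccIn W κ lam ∧ ∃ T ∈ W, ∃ R ∈ W, StrictPO T R ∧
    (∀ t ∈ T, ∃ α ∈ κ, HtIn W T R t α) ∧ (∀ α ∈ κ, ∃ t ∈ T, HtIn W T R t α) ∧ EqIn W T κ ∧
    ∃ B ∈ W, (∀ b ∈ B, BranchIn W T R κ b) ∧ LeIn W lam B

end Pool.Agent.H926Z.WK
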