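import Pool.Agent.H926Z.WK.Card

/-! The forcing theorem for Cohen forcing over a countable transitive model. -/

set_option linter.unusedSectionVars false
set_option linter.unreachableTactic false
set_option linter.unusedTactic false

namespace Pool.Agent.H926Z.WK

open CohenE ZFSet

variable {M : Set ZFSet.{0}} [hM : Fact (CTM M)]
variable {Γ : Type 1} [Ctx M Γ]

/-- the recursive clause for equality of values -/
def Clause (f z : M) (x : XM M) : Prop := ∀ σ τ : M, z = mpair σ τ →
  (∀ ρ s : M, (mpair ρ s).1 ∈ σ.1 → Seg s x → ∃ ρ' s' w : M, (mpair ρ' s').1 ∈ τ.1 ∧ Seg s' x ∧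
    (mpair (mpair ρ ρ') w).1 ∈ f.1 ∧ opn w x) ∧
  (∀ ρ' s' : M, (mpair ρ' s').1 ∈ τ.1 → Seg s' x → ∃ ρ s w : M, (mpair ρ s).1 ∈ σ.1 ∧ Seg s x ∧
    (mpair (mpair ρ ρ') w).1 ∈ f.1 ∧ opn w x)

theorem ff_clause : FF M (fun (p : M × M) x => Clause p.1 p.2 x) := by
  unfold Clause
  repeat' (first | with_reducible apply FF.not | with_reducible apply FF.and | with_reducible apply FF.or | with_reducible apply FF.iff | with_reducible apply FF.ex | with_reducible apply FF.all | with_reducible apply FF.imp | with_reducible apply FF.seg | with_reducible apply FF.opn | with_reducible apply FF.const | with_reducible apply D.not | with_reducible apply D.and | with_reducible apply D.or | with_reducible apply D.iff | with_reducible apply D.ex | with_reducible apply D.all | with_reducible apply D.imp | with_reducible apply D.subset | with_reducible apply D.mem | with_reducible apply D.eq | with_reducible apply F.pair | with_reducible apply F.up | with_reducible apply F.succ  | with_reducible exact F.const _ | exact F.var 0 |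 exact F.var 1 | exact F.var 2 | exact F.var 3 | exact F.var 4 | exact F.var 5 | exact F.var 6 | exact F.var 7 | exact F.var 8 | exact F.var 9 | exact F.var 10 | exact F.var 11 | exact F.var 12 | exact F.var 13)

open Classical in
/-- first projection -/
noncomputable def pfst (z : M) : ZFSet.{0} :=
  if h : ∃ p : M × M, z = mpair p.1 p.2 then h.choose.1.1 else ∅

theorem pfst_pair (a b : M) : pfst (mpair a b) = a.1 := by
  have h : ∃ p : M × M, mpair a b = mpair p.1 p.2 := ⟨(a, b), rfl⟩
  rw [pfst, dif_pos h, ← (mpair_inj.1 h.choose_spec).1]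

theorem ff_eq0 : FF M (fun (p : M × M) x => val x.1 p.1.1 = val x.1 p.2.1) := by
  let r : M → M → Prop := fun z z' => ∃ ρ ρ' s s' σ τ : M, z = mpair ρ ρ' ∧ z' = mpair σ τ ∧
    (mpair ρ s).1 ∈ σ.1 ∧ (mpair ρ' s').1 ∈ τ.1
  have hwf : WellFounded r := by
    refine Subrelation.wf (r := InvImage NameRel pfst) ?_ (InvImage.wf _ nameRel_wf)
    rintro _ _ ⟨ρ, ρ', s, s', σ, τ, rfl, rfl, h, -⟩
    show NameRel (pfst _) (pfst _)
    rw [pfst_pair, pfst_pair]
    exact ⟨s.1, h⟩
  have hr : D M (fun p : M × M => r p.1 p.2) := by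
    simp only [r]
    repeat' (first | with_reducible apply D.not | with_reducible apply D.and | with_reducible apply D.or | with_reducible apply D.iff | with_reducible apply D.ex | with_reducible apply D.all | with_reducible apply D.imp | with_reducible apply D.subset | with_reducible apply D.mem | with_reducible apply D.eq | with_reducible apply F.pair | with_reducible apply F.up | with_reducible apply F.succ  | with_reducible exact F.const _ | exact F.var 0 | exact F.var 1 | exact F.var 2 | exact F.var 3 | exact F.var 4 | exact F.var 5 | exact F.var 6 | exact F.var 7 | exact F.var 8 | exact F.var 9 | exact F.var 10 | exact F.var 11 | exact F.var 12 | exact F.var 13)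
  obtain ⟨G, hG, hG'⟩ := wfrec hwf hr (fun a => by
      obtain ⟨T, haT, hT⟩ := exists_tc a
      refine ⟨mins a (mprod T T), (mem_mins _ _ _).2 (Or.inl rfl), ?_⟩
      rintro _ hc _ ⟨ρ, ρ', s, s', σ, τ, rfl, rfl, h, h'⟩
      have : σ.1 ∈ T.1 ∧ τ.1 ∈ T.1 := by
        rcases (mem_mins _ _ _).1 hc with e | e
        · rw [← e] at haT
          have h1 : (mup σ τ).1 ∈ T.1 := hT _ haT _ (by simp [mpair, mup, ZFSet.pair])
          exact ⟨hT _ h1 _ ((mem_mup _ _ _).2 (Or.inl rfl)),
            hT _ h1 _ ((mem_mup _ _ _).2 (Or.inr rfl))⟩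
        · exact (pair_mem_mprod _ _ _ _).1 e
      exact (mem_mins _ _ _).2 (Or.inr ((pair_mem_mprod _ _ _ _).2
        ⟨ec_mem_trans hT this.1 h, ec_mem_trans hT this.2 h'⟩)))
    (Φ := fun f z => code (Clause f z)) (F.code ff_clause)
  have key : ∀ z σ τ : M, z = mpair σ τ → ∀ x, opn (G z) x ↔ val x.1 σ.1 = val x.1 τ.1 := by
    intro z
    induction z using hwf.induction with
    | _ z ih =>
      rintro σ τ rfl x
      obtain ⟨f, hf, e⟩ := hG' (mpair σ τ)
      have h0 : ∀ ρ ρ' s s' : M, (mpair ρ s).1 ∈ σ.1 → (mpair ρ' s').1 ∈ τ.1 →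
          ((∃ w : M, (mpair (mpair ρ ρ') w).1 ∈ f.1 ∧ opn w x) ↔ val x.1 ρ.1 = val x.1 ρ'.1) := by
        intro ρ ρ' s s' h h'
        have hr' : r (mpair ρ ρ') (mpair σ τ) := ⟨ρ, ρ', s, s', σ, τ, rfl, rfl, h, h'⟩
        rw [← ih _ hr' ρ ρ' rfl x]
        constructor
        · rintro ⟨w, hw, hx⟩
          obtain ⟨b, -, e'⟩ := (hf _).1 hw
          obtain ⟨rfl, rfl⟩ := mpair_inj.1 e'
          exact hx
        · exact fun hx => ⟨_, (hf _).2 ⟨_, hr', rfl⟩, hx⟩
      rw [e, opn_code ff_clause (f, mpair σ τ) x]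
      constructor
      · intro h
        obtain ⟨h1, h2⟩ := h σ τ rfl
        apply ZFSet.ext
        intro z
        rw [ec_mem_valM, ec_mem_valM]
        constructor
        · rintro ⟨ρ, s, h, hs, rfl⟩
          obtain ⟨ρ', s', w, h', hs', hw⟩ := h1 ρ s h hs
          exact ⟨ρ', s', h', hs', (h0 ρ ρ' s s' h h').1 ⟨w, hw⟩⟩
        · rintro ⟨ρ', s', h', hs', rfl⟩
          obtain ⟨ρ, s, w, h, hs, hw⟩ := h2 ρ' s' h' hs'
          exact ⟨ρ, s, h, hs, ((h0 ρ ρ' s s' h h').1 ⟨w, hw⟩).symm⟩
      · intro h σ' τ' e'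
        obtain ⟨rfl, rfl⟩ := mpair_inj.1 e'
        constructor
        · intro ρ s h1 hs
          have : val x.1 ρ.1 ∈ val x.1 τ.1 := h ▸ (ec_mem_valM σ x _).2 ⟨ρ, s, h1, hs, rfl⟩
          obtain ⟨ρ', s', h', hs', e⟩ := (ec_mem_valM τ x _).1 this
          obtain ⟨w, hw⟩ := (h0 ρ ρ' s s' h1 h').2 e
          exact ⟨ρ', s', w, h', hs', hw⟩
        · intro ρ' s' h' hs'
          have : val x.1 ρ'.1 ∈ val x.1 σ.1 := h ▸ (ec_mem_valM τ x _).2 ⟨ρ', s', h', hs', rfl⟩
          obtain ⟨ρ, s, h1, hs, e⟩ := (ec_mem_valM σ x _).1 this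
          obtain ⟨w, hw⟩ := (h0 ρ ρ' s s' h1 h').2 e.symm
          exact ⟨ρ, s, w, h1, hs, hw⟩
  exact (FF.opn (f := fun p : M × M => G (mpair p.1 p.2))
    (fapp1 hG (F.pair (F.var 1) (F.var 0)))).congr fun p x => (key _ _ _ rfl x).symm

theorem ff_eq {f g : Γ → M} (hf : F M f) (hg : F M g) :
    FF M (fun γ x => val x.1 (f γ).1 = val x.1 (g γ).1) :=
  ff_eq0.comp (m := fun γ => (f γ, g γ)) (CM.pair (CM.of hf) hg)

theorem ff_mem {f g : Γ → M} (hf : F M f) (hg : F M g) :
    FF M (fun γ x => val x.1 (f γ).1 ∈ val x.1 (g γ).1) := by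
  have : FF M (fun γ x => ∃ ρ s : M, (mpair ρ s).1 ∈ (g γ).1 ∧ Seg s x ∧
      val x.1 (f γ).1 = val x.1 ρ.1) :=
    FF.ex (FF.ex (FF.and (FF.const (D.mem (F.pair F.snd.w F.snd) hg.w.w))
      (FF.and (FF.seg F.snd) (ff_eq hf.w.w F.snd.w))))
  exact this.congr fun γ x => ec_mem_valM _ _ _

theorem seg_memp (x : XM M) : Seg memp x := ⟨0, rfl⟩

theorem exists_chk : ∃ c : M → M, F M c ∧ ∀ (a : M) (x : XM M), val x.1 (c a).1 = a.1 := by
  have hex : ∀ f : M, ∀ z : M, z.1 ∈ (mset fun z => ∃ c ρ : M, (mpair c ρ).1 ∈ f.1 ∧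
      z = mpair ρ memp).1 ↔ ∃ c ρ : M, (mpair c ρ).1 ∈ f.1 ∧ z = mpair ρ memp := by
    intro f
    obtain ⟨b, hb⟩ := image1 (G := fun ρ : M => mpair ρ memp) (by repeat' (first | with_reducible apply D.not | with_reducible apply D.and | with_reducible apply D.or | with_reducible apply D.iff | with_reducible apply D.ex | with_reducible apply D.all | with_reducible apply D.imp | with_reducible apply D.subset | with_reducible apply D.mem | with_reducible apply D.eq | with_reducible apply F.pair | with_reducible apply F.up | with_reducible apply F.succ  | with_reducible exact F.const _ | exact F.var 0 | exact F.var 1 | exact F.var 2 | exact F.var 3 | exact F.var 4 | exact F.var 5 | exact F.var 6 | exact F.var 7 | exact F.var 8 | exact F.var 9 | exact F.var 10 | exact F.var 11 | exact F.var 12 | exact F.var 13)) (mran f)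
    have : ∀ z : M, z.1 ∈ b.1 ↔ ∃ c ρ : M, (mpair c ρ).1 ∈ f.1 ∧ z = mpair ρ memp := by
      intro z
      rw [hb]
      constructor
      · rintro ⟨ρ, h, rfl⟩
        obtain ⟨c, hc⟩ := (mem_mran _ _).1 h
        exact ⟨c, ρ, hc, rfl⟩
      · rintro ⟨c, ρ, h, rfl⟩
        exact ⟨ρ, (mem_mran _ _).2 ⟨c, h⟩, rfl⟩
    rw [mset_eq this]
    exact this
  have hwf : WellFounded (fun b a : M => b.1 ∈ a.1) := InvImage.wf Subtype.val mem_wf
  obtain ⟨G, hG, hG'⟩ := wfrec hwf (by repeat' (first | with_reducible apply D.not | with_reducible apply D.and | with_reducible apply D.or | with_reducible apply D.iff | with_reducible apply D.ex | with_reducible apply D.all | with_reducible apply D.imp | with_reducible apply D.subset | with_reducible apply D.mem | with_reducible apply D.eq | with_reducible apply F.pair | with_reducible apply F.up | with_reducible apply F.succ  | with_reducible exact F.const _ | exact F.var 0 | exact F.var 1 | exact F.var 2 | exact F.var 3 | exact F.var 4 | exact F.var 5 | exact F.var 6 | exact F.var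 7 | exact F.var 8 | exact F.var 9 | exact F.var 10 | exact F.var 11 | exact F.var 12 | exact F.var 13)) (fun a => by
      obtain ⟨T, haT, hT⟩ := exists_tc a
      exact ⟨T, haT, fun c hc b hb => hT _ hc _ hb⟩)
    (Φ := fun f _ => mset fun z => ∃ c ρ : M, (mpair c ρ).1 ∈ f.1 ∧ z = mpair ρ memp)
    (ofExt (Q := fun (p : M × M) z => ∃ c ρ : M, (mpair c ρ).1 ∈ p.1.1 ∧ z = mpair ρ memp)
      (by repeat' (first | with_reducible apply D.not | with_reducible apply D.and | with_reducible apply D.or | with_reducible apply D.iff | with_reducible apply D.ex | with_reducible apply D.all | with_reducible apply D.imp | with_reducible apply D.subset | with_reducible apply D.mem | with_reducible apply D.eq | with_reducible apply F.pair | with_reducible apply F.up | with_reducible apply F.succ  | with_reducible exact F.const _ | exact F.var 0 | exact F.var 1 | exact F.var 2 | exact F.var 3 | exact F.var 4 | exact F.var 5 | exact F.var 6 | exact F.var 7 | exact F.var 8 | exact F.var 9 | exact F.var 10 | exact F.var 11 | exact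 F.var 12 | exact F.var 13)) fun p z => hex p.1 z)
  refine ⟨G, hG, fun a x => ?_⟩
  induction a using hwf.induction with
  | _ a ih =>
    obtain ⟨f, hf, e⟩ := hG' a
    apply ZFSet.ext
    intro z
    rw [ec_mem_valM, e]
    constructor
    · rintro ⟨ρ, s, h, -, rfl⟩
      obtain ⟨c, ρ', h1, e1⟩ := (hex f _).1 h
      obtain ⟨rfl, rfl⟩ := mpair_inj.1 e1
      obtain ⟨b, hb, e2⟩ := (hf _).1 h1
      obtain ⟨rfl, rfl⟩ := mpair_inj.1 e2
      rw [ih _ hb]; exact hb
    · intro hz
      exact ⟨G (el a hz), memp, (hex f _).2 ⟨el a hz, _, (hf _).2 ⟨_, hz, rfl⟩, rfl⟩, seg_memp x,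
        (ih (el a hz) hz).symm⟩

theorem subset_ext (x : XM M) : M ⊆ Ext M x.1 := fun a ha => by
  obtain ⟨c, -, hc⟩ := exists_chk (M := M)
  exact ⟨c ⟨a, ha⟩, (c ⟨a, ha⟩).2, (hc ⟨a, ha⟩ x).symm⟩

theorem ext_name {x : XM M} {a : ZFSet.{0}} (h : a ∈ Ext M x.1) : ∃ τ : M, a = val x.1 τ.1 := by
  obtain ⟨τ, hτ, e⟩ := h
  exact ⟨⟨τ, hτ⟩, e⟩

theorem ext_trans {x : XM M} {a b : ZFSet.{0}} (h : a ∈ Ext M x.1) (hb : b ∈ a) :
    b ∈ Ext M x.1 := by
  obtain ⟨τ, rfl⟩ := ext_name h
  obtain ⟨ρ, -, -, -, e⟩ := (ec_mem_valM τ x b).1 hb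
  exact ⟨ρ, ρ.2, e⟩

theorem ext_pair {x : XM M} {a b c : ZFSet.{0}} (h : c ∈ Ext M x.1) (hab : pair a b ∈ c) :
    a ∈ Ext M x.1 ∧ b ∈ Ext M x.1 := by
  have h1 : ({a, b} : ZFSet.{0}) ∈ Ext M x.1 := ext_trans (ext_trans h hab) (by simp [ZFSet.pair])
  exact ⟨ext_trans h1 (by simp), ext_trans h1 (by simp)⟩

/-- terms of the forcing language -/
def Tm (M : Set ZFSet.{0}) {Γ : Type 1} [Ctx M Γ] (t : Γ → XM M → ZFSet.{0}) : Prop :=
  ∃ f : Γ → M, F M f ∧ ∀ γ x, t γ x = val x.1 (f γ).1

theorem Tm.val {f : Γ → M} (hf : F M f) : Tm M (fun γ x => val x.1 (f γ).1) :=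
  ⟨f, hf, fun _ _ => rfl⟩

theorem Tm.gnd {f : Γ → M} (hf : F M f) : Tm M (fun γ _ => (f γ).1) := by
  obtain ⟨c, hc, hc'⟩ := exists_chk (M := M)
  exact ⟨fun γ => c (f γ), fapp1 hc hf, fun γ x => (hc' _ x).symm⟩

theorem val_up (σ τ : M) (x : XM M) : val x.1 (mup (mpair σ memp) (mpair τ memp)).1 =
    {val x.1 σ.1, val x.1 τ.1} := by
  apply ZFSet.ext
  intro z
  rw [ec_mem_valM, ZFSet.mem_pair]
  constructor
  · rintro ⟨ρ, s, h, -, rfl⟩
    rcases (mem_mup _ _ _).1 h with e | e
    · exact Or.inl (by rw [(mpair_inj.1 e).1])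
    · exact Or.inr (by rw [(mpair_inj.1 e).1])
  · rintro (rfl | rfl)
    · exact ⟨σ, memp, (mem_mup _ _ _).2 (Or.inl rfl), seg_memp x, rfl⟩
    · exact ⟨τ, memp, (mem_mup _ _ _).2 (Or.inr rfl), seg_memp x, rfl⟩

theorem Tm.pair {s t : Γ → XM M → ZFSet.{0}} (hs : Tm M s) (ht : Tm M t) :
    Tm M (fun γ x => ZFSet.pair (s γ x) (t γ x)) := by
  obtain ⟨f, hf, hf'⟩ := hs
  obtain ⟨g, hg, hg'⟩ := ht
  refine ⟨fun γ => mup (mpair (mup (mpair (f γ) memp) (mpair (f γ) memp)) memp)
    (mpair (mup (mpair (f γ) memp) (mpair (g γ) memp)) memp),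
    F.up (F.pair (F.up (F.pair hf (F.const _)) (F.pair hf (F.const _))) (F.const _))
      (F.pair (F.up (F.pair hf (F.const _)) (F.pair hg (F.const _))) (F.const _)), fun γ x => ?_⟩
  rw [val_up, val_up, val_up, ZFSet.pair_eq_singleton, ← hf', ← hg']
  rfl

theorem tmem {s t : Γ → XM M → ZFSet.{0}} (hs : Tm M s) (ht : Tm M t) :
    FF M (fun γ x => s γ x ∈ t γ x) := by
  obtain ⟨f, hf, hf'⟩ := hs
  obtain ⟨g, hg, hg'⟩ := ht
  exact (ff_mem hf hg).congr fun γ x => by rw [hf', hg']

theorem teq {s t : Γ → XM M → ZFSet.{0}} (hs : Tm M s) (ht : Tm M t) :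
    FF M (fun γ x => s γ x = t γ x) := by
  obtain ⟨f, hf, hf'⟩ := hs
  obtain ⟨g, hg, hg'⟩ := ht
  exact (ff_eq hf hg).congr fun γ x => by rw [hf', hg']

theorem d_ord : D M (fun w : M => w.1.IsOrdinal) := by
  have : D M (fun w : M => (∀ y : M, y.1 ∈ w.1 → y.1 ⊆ w.1) ∧
      ∀ y : M, y.1 ∈ w.1 → ∀ z : M, z.1 ∈ y.1 → z.1 ⊆ y.1) := by repeat' (first | with_reducible apply D.not | with_reducible apply D.and | with_reducible apply D.or | with_reducible apply D.iff | with_reducible apply D.ex | with_reducible apply D.all | with_reducible apply D.imp | with_reducible apply D.subset | with_reducible apply D.mem | with_reducible apply D.eq | with_reducible apply F.pair | with_reducible apply F.up | with_reducible apply F.succ  | with_reducible exact F.const _ | exact F.var 0 | exact F.var 1 | exact F.var 2 | exact F.var 3 | exact F.var 4 | exact F.var 5 | exact F.var 6 | exact F.var 7 | exact F.var 8 | exact F.var 9 | exact F.var 10 | exact F.var 11 | exact F.var 12 | exact F.var 13)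
  refine this.congr fun w => ?_
  rw [isOrdinal_iff_forall_mem_isTransitive]
  exact ⟨fun h => ⟨fun y hy => h.1 _ hy, fun y hy z hz => h.2 _ hy _ hz⟩,
    fun h => ⟨fun y hy => h.1 (el w hy) hy, fun y hy z hz => h.2 (el w hy) hy (el (el w hy) hz) hz⟩⟩

theorem ord_mem {x : XM M} {α : ZFSet.{0}} (hα : α.IsOrdinal) (h : α ∈ Ext M x.1) : α ∈ M := by
  by_contra hcon
  obtain ⟨τ, rfl⟩ := ext_name h
  obtain ⟨T, hτT, hT⟩ := exists_tc τ
  have hff : FF M (fun (p : M × M) y => val y.1 p.1.1 = p.2.1) := by repeat' (first | with_reducible apply FF.not | with_reducible apply FF.and | with_reducible apply FF.or | with_reducible apply FF.iff | with_reducible apply FF.ex | with_reducible apply FF.all | with_reducible apply FF.imp | with_reducible apply FF.seg | with_reducible apply FF.opn | with_reducible apply FF.const | with_reducible apply tmem | with_reducible apply teq | with_reducible apply Tm.pair | with_reducible apply Tm.val | with_reducible apply Tm.gnd | with_reducible apply D.not | with_reducible apply D.and |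 with_reducible apply D.or | with_reducible apply D.iff | with_reducible apply D.ex | with_reducible apply D.all | with_reducible apply D.imp | with_reducible apply D.subset | with_reducible apply D.mem | with_reducible apply D.eq | with_reducible apply F.pair | with_reducible apply F.up | with_reducible apply F.succ  | with_reducible exact F.const _ | exact F.var 0 | exact F.var 1 | exact F.var 2 | exact F.var 3 | exact F.var 4 | exact F.var 5 | exact F.var 6 | exact F.var 7 | exact F.var 8 | exact F.var 9 | exact F.var 10 | exact F.var 11 | exact F.var 12 | exact F.var 13)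
  have hd : D M (fun p : (M × M) × M => Frc (fun y => val y.1 p.1.1.1 = p.1.2.1) p.2) := hff.df
  let Fr : M → M → M → Prop := fun ρ w s => Frc (fun y => val y.1 ρ.1 = w.1) s
  have hFr : D M (fun p : (M × M) × M => Fr p.1.1 p.1.2 p.2) := hd
  obtain ⟨A, hA⟩ := sep1 (Q := fun z => ∃ w ρ s : M, z = mpair ρ s ∧ s.1 ∈ (cnd : M).1 ∧ Fr ρ w s)
    (by repeat' (first | with_reducible apply app3 hFr | with_reducible apply D.not | with_reducible apply D.and | with_reducible apply D.or | with_reducible apply D.iff | with_reducible apply D.ex | with_reducible apply D.all | with_reducible apply D.imp | with_reducible apply D.subset | with_reducible apply D.mem | with_reducible apply D.eq | with_reducible apply F.pair | with_reducible apply F.up | with_reducible apply F.succ  | with_reducible exact F.const _ | exact F.var 0 | exact F.var 1 | exact F.var 2 | exact F.var 3 | exact F.var 4 | exact F.var 5 | exact F.var 6 | exact F.var 7 | exact F.var 8 | exact F.var 9 | exact F.var 10 | exact F.var 11 | exact F.var 12 | exact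 F.var 13)) (mprod T cnd)
  obtain ⟨b, hb⟩ := exists_repl
    (G := fun z w => ∃ ρ s : M, z = mpair ρ s ∧ s.1 ∈ (cnd : M).1 ∧ Fr ρ w s)
    (by repeat' (first | with_reducible apply app3 hFr | with_reducible apply D.not | with_reducible apply D.and | with_reducible apply D.or | with_reducible apply D.iff | with_reducible apply D.ex | with_reducible apply D.all | with_reducible apply D.imp | with_reducible apply D.subset | with_reducible apply D.mem | with_reducible apply D.eq | with_reducible apply F.pair | with_reducible apply F.up | with_reducible apply F.succ  | with_reducible exact F.const _ | exact F.var 0 | exact F.var 1 | exact F.var 2 | exact F.var 3 | exact F.var 4 | exact F.var 5 | exact F.var 6 | exact F.var 7 | exact F.var 8 | exact F.var 9 | exact F.var 10 | exact F.var 11 | exact F.var 12 | exact F.var 13)) A (fun z hz => by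
      obtain ⟨w, hw⟩ := ((hA z).1 hz).2
      refine ⟨w, hw, ?_⟩
      obtain ⟨ρ, s, rfl, hs, h1⟩ := hw
      rintro w' ⟨ρ', s', e, -, h2⟩
      obtain ⟨rfl, rfl⟩ := mpair_inj.1 e
      obtain ⟨y, hy⟩ := exists_seg ((mem_cnd s).1 hs)
      exact Subtype.ext ((h2 y hy).symm.trans (h1 y hy)))
  obtain ⟨O, hO⟩ := sep1 d_ord b
  have hall : ∀ β : M, β.1.IsOrdinal → β.1 ∈ O.1 := by
    intro β hβ
    refine (hO β).2 ⟨?_, hβ⟩
    rcases hβ.mem_trichotomous hα with h1 | h1 | h1
    · obtain ⟨ρ, s, h2, -, e⟩ := (ec_mem_valM τ x _).1 h1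
      obtain ⟨s', hs', hf⟩ := hff.op (ρ, β) x e.symm
      exact (hb β).2 ⟨mpair ρ s', (hA _).2 ⟨(pair_mem_mprod _ _ _ _).2
        ⟨ec_mem_trans hT hτT h2, hs'.mem_cnd⟩, β, ρ, s', rfl, hs'.mem_cnd, hf⟩,
        ρ, s', rfl, hs'.mem_cnd, hf⟩
    · exact absurd (h1 ▸ β.2) hcon
    · exact absurd (hM.out.trans _ β.2 _ h1) hcon
  have hOo : O.1.IsOrdinal := isOrdinal_iff_forall_mem_isOrdinal.2
    ⟨fun y hy z hz => hall (el (el O hy) hz) (((hO (el O hy)).1 hy).2.mem hz),
      fun y hy => ((hO (el O hy)).1 hy).2⟩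
  exact mem_irrefl _ (hall O hOo)

theorem le_up {x : XM M} {a b : ZFSet.{0}} (h : LeIn M a b) : LeIn (Ext M x.1) a b := by
  obtain ⟨f, hf, h⟩ := h
  exact ⟨f, subset_ext x hf, h⟩

theorem le_down {x : XM M} {a b : M} (h : LeIn (Ext M x.1) a.1 b.1) :
    LeIn M a.1 (mprod cnd b).1 := by
  obtain ⟨f, hf, h1, h2⟩ := h
  obtain ⟨φ, rfl⟩ := ext_name hf
  have hff : FF M (fun (p : M × M) y => pair p.1.1 p.2.1 ∈ val y.1 φ.1) := by repeat' (first | with_reducible apply FF.not | with_reducible apply FF.and | with_reducible apply FF.or | with_reducible apply FF.iff | with_reducible apply FF.ex | with_reducible apply FF.all | with_reducible apply FF.imp | with_reducible apply FF.seg | with_reducible apply FF.opn | with_reducible apply FF.const | with_reducible apply tmem | with_reducible apply teq | with_reducible apply Tm.pair | with_reducible apply Tm.val | with_reducible apply Tm.gnd | with_reducible apply D.not | with_reducible apply D.and | with_reducible apply D.or | with_reducible apply D.iff | with_reducible apply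 D.ex | with_reducible apply D.all | with_reducible apply D.imp | with_reducible apply D.subset | with_reducible apply D.mem | with_reducible apply D.eq | with_reducible apply F.pair | with_reducible apply F.up | with_reducible apply F.succ  | with_reducible exact F.const _ | exact F.var 0 | exact F.var 1 | exact F.var 2 | exact F.var 3 | exact F.var 4 | exact F.var 5 | exact F.var 6 | exact F.var 7 | exact F.var 8 | exact F.var 9 | exact F.var 10 | exact F.var 11 | exact F.var 12 | exact F.var 13)
  have hinj : FF M (fun (_ : M) y => ∀ β β' n : M, pair β.1 n.1 ∈ val y.1 φ.1 →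
      pair β'.1 n.1 ∈ val y.1 φ.1 → β = β') := by repeat' (first | with_reducible apply FF.not | with_reducible apply FF.and | with_reducible apply FF.or | with_reducible apply FF.iff | with_reducible apply FF.ex | with_reducible apply FF.all | with_reducible apply FF.imp | with_reducible apply FF.seg | with_reducible apply FF.opn | with_reducible apply FF.const | with_reducible apply tmem | with_reducible apply teq | with_reducible apply Tm.pair | with_reducible apply Tm.val | with_reducible apply Tm.gnd | with_reducible apply D.not | with_reducible apply D.and | with_reducible apply D.or | with_reducible apply D.iff | with_reducible apply D.ex | with_reducible apply D.all | with_reducible apply D.imp | with_reducible apply D.subset | with_reducible apply D.mem | with_reducible apply D.eq | with_reducible apply F.pair | with_reducible apply F.up | with_reducible apply F.succ  | with_reducible exact F.const _ | exact F.var 0 | exact F.var 1 | exact F.var 2 | exact F.var 3 | exact F.var 4 | exact F.var 5 | exact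 F.var 6 | exact F.var 7 | exact F.var 8 | exact F.var 9 | exact F.var 10 | exact F.var 11 | exact F.var 12 | exact F.var 13)
  obtain ⟨s₀, hs₀, hf₀⟩ := hinj.op memp x fun β β' n h h' => Subtype.ext (h2 _ _ _ h h')
  let Fr : M → M → M → Prop := fun β n s => Frc (fun y => pair β.1 n.1 ∈ val y.1 φ.1) s
  have hFr : D M (fun p : (M × M) × M => Fr p.1.1 p.1.2 p.2) := hff.df
  refine le_of_rel (Q := fun β z => ∃ s n : M, z = mpair s n ∧ s₀.1 ⊆ s.1 ∧ Fr β n s)
    (by repeat' (first | with_reducible apply app3 hFr | with_reducible apply D.not | with_reducible apply D.and | with_reducible apply D.or | with_reducible apply D.iff | with_reducible apply D.ex | with_reducible apply D.all | with_reducible apply D.imp | with_reducible apply D.subset | with_reducible apply D.mem | with_reducible apply D.eq | with_reducible apply F.pair | with_reducible apply F.up | with_reducible apply F.succ  | with_reducible exact F.const _ | exact F.var 0 | exact F.var 1 | exact F.var 2 | exact F.var 3 | exact F.var 4 | exact F.var 5 | exact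 F.var 6 | exact F.var 7 | exact F.var 8 | exact F.var 9 | exact F.var 10 | exact F.var 11 | exact F.var 12 | exact F.var 13)) (fun β hβ => ?_) ?_
  · obtain ⟨n, hn, -⟩ := h1.2 _ hβ
    have hnb := (func_mem h1 hn).2
    obtain ⟨s, hs, hss, hfr⟩ := (hff.op (β, el b hnb)).ext (x := x) hn hs₀
    exact ⟨mpair s (el b hnb), (pair_mem_mprod _ _ _ _).2 ⟨hs.mem_cnd, hnb⟩, s, _, rfl, hss, hfr⟩
  · rintro β β' _ - - hz ⟨s, n, rfl, hss, h3⟩ ⟨s', n', e, -, h4⟩
    obtain ⟨rfl, rfl⟩ := mpair_inj.1 e
    obtain ⟨y, hy⟩ := exists_seg ((mem_cnd s).1 ((pair_mem_mprod _ _ _ _).1 hz).1)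
    exact hf₀ y (hy.mono hs₀.isCond hss) β β' n (h3 y hy) (h4 y hy)

end Pool.Agent.H926Z.WK
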