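import Pool.Agent.H926Z.WK.Card

/-! The ground-model tree of classes of names. -/

set_option linter.unusedSectionVars false
set_option linter.unreachableTactic false
set_option linter.unusedTactic false

namespace Pool.Agent.H926Z.WK

open CohenE ZFSet

variable {M : Set ZFSet.{0}} [hM : Fact (CTM M)]

theorem wkh_of {κ lam I : M} (hκ : IsSuccIn M (om : M).1 κ.1) (hl : IsSuccIn M κ.1 lam.1)
    (hI : I.1 ⊆ lam.1) (hn : ¬ LeIn M I.1 κ.1) {S N : M → M → M → Prop}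
    (hS : D M (fun p : (M × M) × M => S p.1.1 p.1.2 p.2))
    (hN : D M (fun p : (M × M) × M => N p.1.1 p.1.2 p.2))
    (symm : ∀ ξ η γ : M, γ.1 ∈ κ.1 → S ξ η γ → S η ξ γ)
    (trans : ∀ ξ η ζ γ : M, γ.1 ∈ κ.1 → S ξ η γ → S η ζ γ → S ξ ζ γ)
    (down : ∀ ξ η γ γ' : M, γ.1 ∈ κ.1 → γ'.1 ∈ γ.1 → S ξ η γ → S ξ η γ')
    (cof : ∀ α : M, α.1 ∈ I.1 → ∀ γ : M, γ.1 ∈ κ.1 → ∃ ξ : M, ξ.1 ∈ κ.1 ∧ N α ξ γ)
    (ndown : ∀ α ξ γ γ' : M, γ.1 ∈ κ.1 → γ'.1 ∈ γ.1 → N α ξ γ → N α ξ γ')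
    (same : ∀ α : M, α.1 ∈ I.1 → ∀ ξ η γ : M, γ.1 ∈ κ.1 → N α ξ γ → N α η γ → S ξ η γ)
    (diff : ∀ α : M, α.1 ∈ I.1 → ∀ β : M, β.1 ∈ I.1 → α ≠ β → ∃ γ : M, γ.1 ∈ κ.1 ∧
      ∀ ξ η : M, N α ξ γ → N β η γ → ¬ S ξ η γ) : WKH M := by
  have ko := hκ.2.1
  obtain ⟨T, hT0, hT⟩ := sep2 (Q := fun γ ξ => S ξ ξ γ ∧ ∀ η : M, η.1 ∈ ξ.1 → ¬ S ξ η γ)
    (by repeat' (first | with_reducible apply app3 hS | with_reducible apply D.not | with_reducible apply D.and | with_reducible apply D.or | with_reducible apply D.iff | with_reducible apply D.ex | with_reducible apply D.all | with_reducible apply D.imp | with_reducible apply D.subset | with_reducible apply D.mem | with_reducible apply D.eq | with_reducible apply F.pair | with_reducible apply F.up | with_reducible apply F.succ  | with_reducible exact F.const _ | exact F.var 0 | exact F.var 1 | exact F.var 2 | exact F.var 3 | exact F.var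 4 | exact F.var 5 | exact F.var 6 | exact F.var 7 | exact F.var 8 | exact F.var 9 | exact F.var 10 | exact F.var 11 | exact F.var 12 | exact F.var 13)) κ κ
  have rep : ∀ γ ξ : M, γ.1 ∈ κ.1 → ξ.1 ∈ κ.1 → S ξ ξ γ →
      ∃ ζ : M, (mpair γ ζ).1 ∈ T.1 ∧ S ζ ξ γ := by
    intro γ ξ hγ hξ h
    have hwf : WellFounded (fun b a : M => b.1 ∈ a.1) := InvImage.wf Subtype.val mem_wf
    obtain ⟨ζ, ⟨h1, h2⟩, hmin⟩ := hwf.has_min {η | η.1 ∈ κ.1 ∧ S η ξ γ} ⟨ξ, hξ, h⟩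
    refine ⟨ζ, (hT _ _).2 ⟨hγ, h1, trans _ _ _ _ hγ h2 (symm _ _ _ hγ h2), fun η hη h3 => ?_⟩, h2⟩
    exact hmin η ⟨ko.mem_trans hη h1, trans _ _ _ _ hγ (symm _ _ _ hγ h3) h2⟩ hη
  have uniq : ∀ γ ζ ζ' : M, (mpair γ ζ).1 ∈ T.1 → (mpair γ ζ').1 ∈ T.1 → S ζ ζ' γ → ζ = ζ' := by
    intro γ ζ ζ' h h' hs
    obtain ⟨h1, h2, -, h3⟩ := (hT _ _).1 h
    obtain ⟨-, h2', -, h3'⟩ := (hT _ _).1 h'
    rcases (ko.mem h2).mem_trichotomous (ko.mem h2') with e | e | e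
    · exact absurd (symm _ _ _ h1 hs) (h3' _ e)
    · exact Subtype.ext e
    · exact absurd hs (h3 _ e)
  obtain ⟨R, hR0, hR1⟩ := sep2 (Q := fun u v => ∃ γ ξ γ' ξ' : M, u = mpair γ ξ ∧ v = mpair γ' ξ' ∧
    γ.1 ∈ γ'.1 ∧ S ξ ξ' γ) (by repeat' (first | with_reducible apply app3 hS | with_reducible apply D.not | with_reducible apply D.and | with_reducible apply D.or | with_reducible apply D.iff | with_reducible apply D.ex | with_reducible apply D.all | with_reducible apply D.imp | with_reducible apply D.subset | with_reducible apply D.mem | with_reducible apply D.eq | with_reducible apply F.pair | with_reducible apply F.up | with_reducible apply F.succ  | with_reducible exact F.const _ | exact F.var 0 | exact F.var 1 | exact F.var 2 | exact F.var 3 | exact F.var 4 | exact F.var 5 | exact F.var 6 | exact F.var 7 | exact F.var 8 | exact F.var 9 | exact F.var 10 | exact F.var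 11 | exact F.var 12 | exact F.var 13)) T T
  have hR : ∀ γ ξ γ' ξ' : M, pair (mpair γ ξ).1 (mpair γ' ξ').1 ∈ R.1 ↔ (mpair γ ξ).1 ∈ T.1 ∧
      (mpair γ' ξ').1 ∈ T.1 ∧ γ.1 ∈ γ'.1 ∧ S ξ ξ' γ := by
    intro γ ξ γ' ξ'
    refine (hR1 (mpair γ ξ) (mpair γ' ξ')).trans (and_congr_right fun _ => and_congr_right fun _ =>
      ⟨?_, fun h => ⟨γ, ξ, γ', ξ', rfl, rfl, h⟩⟩)
    rintro ⟨a, b, c, d, e1, e2, h⟩
    obtain ⟨rfl, rfl⟩ := mpair_inj.1 e1
    obtain ⟨rfl, rfl⟩ := mpair_inj.1 e2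
    exact h
  have hTd : ∀ u ∈ T.1, ∃ γ ξ : M, u = (mpair γ ξ).1 := fun u hu => by
    obtain ⟨γ, ξ, e⟩ := hT0 (el T hu) hu
    exact ⟨γ, ξ, congrArg Subtype.val e⟩
  have hRT : ∀ u v, pair u v ∈ R.1 → u ∈ T.1 ∧ v ∈ T.1 := fun u v h => by
    have hm := hM.out.trans _ R.2 _ h
    have := (hR1 ⟨u, fst_memM hm⟩ ⟨v, snd_memM hm⟩).1 h
    exact ⟨this.1, this.2.1⟩
  have hHt : ∀ γ ξ : M, (mpair γ ξ).1 ∈ T.1 → HtIn M T.1 R.1 (mpair γ ξ).1 γ.1 := by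
    intro γ ξ ht
    obtain ⟨hγ, hξ, hs, -⟩ := (hT _ _).1 ht
    obtain ⟨f, hf, hf'⟩ := exists_fn (A := γ) (B := T)
      (Q := fun γ' u => ∃ ζ : M, u = mpair γ' ζ ∧ S ζ ξ γ') (by repeat' (first | with_reducible apply app3 hS | with_reducible apply D.not | with_reducible apply D.and | with_reducible apply D.or | with_reducible apply D.iff | with_reducible apply D.ex | with_reducible apply D.all | with_reducible apply D.imp | with_reducible apply D.subset | with_reducible apply D.mem | with_reducible apply D.eq | with_reducible apply F.pair | with_reducible apply F.up | with_reducible apply F.succ  | with_reducible exact F.const _ | exact F.var 0 | exact F.var 1 | exact F.var 2 | exact F.var 3 | exact F.var 4 | exact F.var 5 | exact F.var 6 | exact F.var 7 | exact F.var 8 | exact F.var 9 | exact F.var 10 | exact F.var 11 | exact F.var 12 | exact F.var 13)) (fun γ' hγ' => by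
        obtain ⟨ζ, h1, h2⟩ := rep γ' ξ (ko.mem_trans hγ' hγ) hξ (down _ _ _ _ hγ hγ' hs)
        exact ⟨_, h1, ζ, rfl, h2⟩)
    have hfd : ∀ β u, pair β u ∈ f.1 → ∃ γ' ζ : M, β = γ'.1 ∧ u = (mpair γ' ζ).1 ∧
        γ'.1 ∈ γ.1 ∧ (mpair γ' ζ).1 ∈ T.1 ∧ S ζ ξ γ' := fun β u h => by
      have h1 := func_mem hf h
      obtain ⟨ζ, e, h2⟩ := hf' (el γ h1.1) (el T h1.2) h
      have e' : u = (mpair (el γ h1.1) ζ).1 := congrArg Subtype.val e
      exact ⟨el γ h1.1, ζ, rfl, e', h1.1, e' ▸ h1.2, h2⟩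
    refine ⟨ko.mem hγ, f, f.2, hf, fun u => ⟨fun h => ?_, ?_⟩, fun β β' u v h h' => ?_⟩
    · obtain ⟨γ', ζ, rfl⟩ := hTd u (hRT _ _ h).1
      obtain ⟨h1, -, h2, h3⟩ := (hR _ _ _ _).1 h
      obtain ⟨u', hu', -⟩ := hf.2 _ h2
      obtain ⟨γ'', ζ', e, rfl, -, h4, h5⟩ := hfd _ _ hu'
      obtain rfl : γ' = γ'' := Subtype.ext e
      have hγ' := ko.mem_trans h2 hγ
      rw [uniq _ _ _ h1 h4 (trans _ _ _ _ hγ' h3 (symm _ _ _ hγ' h5))]
      exact ⟨_, hu'⟩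
    · rintro ⟨β, h⟩
      obtain ⟨γ', ζ, -, rfl, h1, h2, h3⟩ := hfd _ _ h
      exact (hR _ _ _ _).2 ⟨h2, ht, h1, h3⟩
    · obtain ⟨γ', ζ, rfl, rfl, h1, h2, h3⟩ := hfd _ _ h
      obtain ⟨γ'', ζ', rfl, rfl, h1', h2', h3'⟩ := hfd _ _ h'
      rw [hR]
      refine ⟨fun h4 => ⟨h2, h2', h4, ?_⟩, fun h4 => h4.2.2.1⟩
      have hγ' := ko.mem_trans h1 hγ
      exact trans _ _ _ _ hγ' h3 (symm _ _ _ hγ' (down _ _ _ _ (ko.mem_trans h1' hγ) h4 h3'))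
  have hQ : D M (fun p : M × M => ∃ γ ζ ξ : M, p.2 = mpair γ ζ ∧ N p.1 ξ γ ∧ S ζ ξ γ) := by
    repeat' (first | with_reducible apply app3 hS | with_reducible apply app3 hN | with_reducible apply D.not | with_reducible apply D.and | with_reducible apply D.or | with_reducible apply D.iff | with_reducible apply D.ex | with_reducible apply D.all | with_reducible apply D.imp | with_reducible apply D.subset | with_reducible apply D.mem | with_reducible apply D.eq | with_reducible apply F.pair | with_reducible apply F.up | with_reducible apply F.succ  | with_reducible exact F.const _ | exact F.var 0 | exact F.var 1 | exact F.var 2 | exact F.var 3 | exact F.var 4 | exact F.var 5 | exact F.var 6 | exact F.var 7 | exact F.var 8 | exact F.var 9 | exact F.var 10 | exact F.var 11 | exact F.var 12 | exact F.var 13)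
  let c : M → M := fun α => msep T fun u => ∃ γ ζ ξ : M, u = mpair γ ζ ∧ N α ξ γ ∧ S ζ ξ γ
  have hc : F M c :=
    F.sep (Q := fun (α : M) u => ∃ γ ζ ξ : M, u = mpair γ ζ ∧ N α ξ γ ∧ S ζ ξ γ) hQ (F.const T)
  have hc0 : ∀ α u : M, u.1 ∈ (c α).1 ↔ u.1 ∈ T.1 ∧
      ∃ γ ζ ξ : M, u = mpair γ ζ ∧ N α ξ γ ∧ S ζ ξ γ := fun α u =>
    mem_msep (Q := fun (α : M) u => ∃ γ ζ ξ : M, u = mpair γ ζ ∧ N α ξ γ ∧ S ζ ξ γ) hQ α T u
  have hcd : ∀ (α : M) u, u ∈ (c α).1 → ∃ γ ζ ξ : M, u = (mpair γ ζ).1 ∧ (mpair γ ζ).1 ∈ T.1 ∧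
      N α ξ γ ∧ S ζ ξ γ := fun α u hu => by
    obtain ⟨h1, γ, ζ, ξ, e, h2⟩ := (hc0 α (el _ hu)).1 hu
    exact ⟨γ, ζ, ξ, congrArg Subtype.val e, e ▸ h1, h2⟩
  have hcm : ∀ α : M, α.1 ∈ I.1 → ∀ γ : M, γ.1 ∈ κ.1 → ∃ ζ ξ : M, (mpair γ ζ).1 ∈ T.1 ∧
      (mpair γ ζ).1 ∈ (c α).1 ∧ N α ξ γ ∧ S ζ ξ γ := fun α hα γ hγ => by
    obtain ⟨ξ, hξ, h1⟩ := cof α hα γ hγ
    obtain ⟨ζ, h2, h3⟩ := rep γ ξ hγ hξ (same α hα _ _ _ hγ h1 h1)
    exact ⟨ζ, ξ, h2, (hc0 _ _).2 ⟨h2, γ, ζ, ξ, rfl, h1, h3⟩, h1, h3⟩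
  obtain ⟨α₀, hα₀⟩ : ∃ α₀ : M, α₀.1 ∈ I.1 := by
    by_contra hcon
    exact hn (le_of_subset fun z hz => absurd ⟨el I hz, hz⟩ hcon)
  obtain ⟨B, hB⟩ := image1 hc I
  refine ⟨κ, lam, om_eq (M := M) ▸ hκ, hl, T, T.2, R, R.2, ⟨fun z hz => ?_, fun u h => ?_,
    fun u v w h h' => ?_⟩, fun t ht => ?_, fun γ hγ => ?_, ?_, B, B.2, fun b hb => ?_, ?_⟩
  · obtain ⟨u, v, e⟩ := hR0 (el R hz) hz
    have e' : z = pair u.1 v.1 := congrArg Subtype.val e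
    rw [e'] at hz ⊢
    exact pair_mem_prod.2 (hRT _ _ hz)
  · obtain ⟨γ, ξ, rfl⟩ := hTd u (hRT _ _ h).1
    exact mem_irrefl _ ((hR _ _ _ _).1 h).2.2.1
  · obtain ⟨γ, ξ, rfl⟩ := hTd u (hRT _ _ h).1
    obtain ⟨γ', ξ', rfl⟩ := hTd v (hRT _ _ h).2
    obtain ⟨γ'', ξ'', rfl⟩ := hTd w (hRT _ _ h').2
    obtain ⟨h1, h2, h3, h4⟩ := (hR _ _ _ _).1 h
    obtain ⟨-, h2', h3', h4'⟩ := (hR _ _ _ _).1 h'
    exact (hR _ _ _ _).2 ⟨h1, h2', (ko.mem ((hT _ _).1 h2').1).mem_trans h3 h3',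
      trans _ _ _ _ ((hT _ _).1 h1).1 h4 (down _ _ _ _ ((hT _ _).1 h2).1 h3 h4')⟩
  · obtain ⟨γ, ξ, rfl⟩ := hTd t ht
    exact ⟨γ, ((hT _ _).1 ht).1, hHt _ _ ht⟩
  · obtain ⟨ζ, -, h, -⟩ := hcm α₀ hα₀ (el κ hγ) hγ
    exact ⟨_, h, hHt _ _ h⟩
  · obtain ⟨θ, h1, h2, h3⟩ := godel1 hκ (A := T) fun z hz => by
      obtain ⟨γ, ξ, rfl⟩ := hTd z hz
      exact (pair_mem_mprod _ _ _ _).2 ⟨((hT _ _).1 hz).1, ((hT _ _).1 hz).2.1⟩
    rcases (h1.subset_iff_eq_or_mem ko).1 h2 with e | e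
    · exact e ▸ h3
    · refine absurd (LeIn.trans (le_of_rel (A := κ) (B := T)
        (Q := fun γ u => ∃ ζ : M, u = mpair γ ζ) (by repeat' (first | with_reducible apply D.not | with_reducible apply D.and | with_reducible apply D.or | with_reducible apply D.iff | with_reducible apply D.ex | with_reducible apply D.all | with_reducible apply D.imp | with_reducible apply D.subset | with_reducible apply D.mem | with_reducible apply D.eq | with_reducible apply F.pair | with_reducible apply F.up | with_reducible apply F.succ  | with_reducible exact F.const _ | exact F.var 0 | exact F.var 1 | exact F.var 2 | exact F.var 3 | exact F.var 4 | exact F.var 5 | exact F.var 6 | exact F.var 7 | exact F.var 8 | exact F.var 9 | exact F.var 10 | exact F.var 11 | exact F.var 12 | exact F.var 13)) (fun γ hγ => ?_) ?_)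
        (h3.le.trans (hκ.2.2.2 _ e))) hκ.2.2.1
      · obtain ⟨ζ, -, h, -⟩ := hcm α₀ hα₀ γ hγ
        exact ⟨_, h, ζ, rfl⟩
      · rintro γ γ' _ - - - ⟨ζ, rfl⟩ ⟨ζ', e⟩
        exact (mpair_inj.1 e).1
  · obtain ⟨α, hα, e⟩ := (hB (el B hb)).1 hb
    obtain rfl : b = (c α).1 := congrArg Subtype.val e
    refine ⟨fun u hu => ((hc0 α (el _ hu)).1 hu).1, fun u hu v hv => ?_, fun γ hγ => ?_⟩
    · obtain ⟨γ, ζ, ξ, rfl, h1, h2, h3⟩ := hcd α u hu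
      obtain ⟨γ', ζ', ξ', rfl, h1', h2', h3'⟩ := hcd α v hv
      have hγ := ((hT _ _).1 h1).1
      have hγ' := ((hT _ _).1 h1').1
      rcases (ko.mem hγ).mem_trichotomous (ko.mem hγ') with e | e | e
      · exact Or.inr (Or.inl ((hR _ _ _ _).2 ⟨h1, h1', e, trans _ _ _ _ hγ h3 (trans _ _ _ _ hγ
          (same α hα _ _ _ hγ h2 (ndown _ _ _ _ hγ' e h2'))
          (symm _ _ _ hγ (down _ _ _ _ hγ' e h3')))⟩))
      · obtain rfl : γ = γ' := Subtype.ext e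
        rw [uniq _ _ _ h1 h1' (trans _ _ _ _ hγ h3 (trans _ _ _ _ hγ (same α hα _ _ _ hγ h2 h2')
          (symm _ _ _ hγ h3')))]
        exact Or.inl rfl
      · exact Or.inr (Or.inr ((hR _ _ _ _).2 ⟨h1', h1, e, trans _ _ _ _ hγ' h3' (trans _ _ _ _ hγ'
          (same α hα _ _ _ hγ' h2' (ndown _ _ _ _ hγ e h2))
          (symm _ _ _ hγ' (down _ _ _ _ hγ e h3)))⟩))
    · obtain ⟨ζ, -, h, h', -⟩ := hcm α hα (el κ hγ) hγ
      exact ⟨_, h', hHt _ _ h⟩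
  · refine (le_of_not_le hl hI hn).trans (le_of_rel (Q := fun α b => b = c α) hc
      (fun α hα => ⟨c α, (hB _).2 ⟨α, hα, rfl⟩, rfl⟩) ?_)
    rintro α β _ hα hβ - rfl e
    by_contra hne
    obtain ⟨γ, hγ, h⟩ := diff α hα β hβ hne
    obtain ⟨ζ, ξ, -, h1, h2, h3⟩ := hcm α hα γ hγ
    rw [e] at h1
    obtain ⟨-, γ', ζ', η, e', h4, h5⟩ := (hc0 _ _).1 h1
    obtain ⟨rfl, rfl⟩ := mpair_inj.1 e'
    exact h ξ η h2 h4 (trans _ _ _ _ hγ (symm _ _ _ hγ h3) h5)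

end Pool.Agent.H926Z.WK
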