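import Pool.Agent.H926Z.WK.Forc
import Pool.Agent.H926Z.WK.Tree

/-! Cohen forcing does not add a weak Kurepa tree. -/

set_option linter.unusedSectionVars false
set_option linter.unreachableTactic false
set_option linter.unusedTactic false

namespace Pool.Agent.H926Z.WK

open CohenE ZFSet

section External

/-- `f` restricted to `δ` enumerates the predecessors of `t` -/
def Lvx (R t δ f : ZFSet.{0}) : Prop :=
  (∀ β ∈ δ, ∃ u, pair β u ∈ f) ∧ (∀ u, pair u t ∈ R ↔ ∃ β ∈ δ, pair β u ∈ f) ∧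
  (∀ β ∈ δ, ∀ β' ∈ δ, ∀ u v, pair β u ∈ f → pair β' v ∈ f → (β ∈ β' ↔ pair u v ∈ R)) ∧
  ∀ β ∈ δ, ∀ u v, pair β u ∈ f → pair β v ∈ f → u = v

variable {W : Set ZFSet.{0}} {T R t δ δ' γ f f' v v' : ZFSet.{0}}

theorem Lvx.restrict (hR : StrictPO T R) (h : Lvx R t δ f) (hδ : δ.IsOrdinal) (hγ : γ ∈ δ)
    (hv : pair γ v ∈ f) : Lvx R v γ f := by
  have hs := hδ.subset_of_mem hγ
  refine ⟨fun β hβ => h.1 β (hs hβ), fun u => ⟨fun hu => ?_, ?_⟩,
    fun β hβ β' hβ' => h.2.2.1 β (hs hβ) β' (hs hβ'), fun β hβ => h.2.2.2 β (hs hβ)⟩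
  · obtain ⟨β, hβ, h1⟩ := (h.2.1 u).1 (hR.2.2 _ _ _ hu ((h.2.1 v).2 ⟨γ, hγ, hv⟩))
    exact ⟨β, (h.2.2.1 β hβ γ hγ u v h1 hv).2 hu, h1⟩
  · rintro ⟨β, hβ, h1⟩
    exact (h.2.2.1 β (hs hβ) γ hγ u v h1 hv).1 hβ

theorem Lvx.uniq (hR : StrictPO T R) : ∀ {δ δ' t : ZFSet.{0}}, δ.IsOrdinal → δ'.IsOrdinal →
    Lvx R t δ f → Lvx R t δ' f' → δ = δ' := by
  intro δ
  induction δ using ZFSet.inductionOn with
  | h δ ih =>
    intro δ' t hδ hδ' h h'
    apply ZFSet.ext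
    intro β
    constructor
    · intro hβ
      obtain ⟨u, hu⟩ := h.1 β hβ
      obtain ⟨β', hβ', hu'⟩ := (h'.2.1 u).1 ((h.2.1 u).2 ⟨β, hβ, hu⟩)
      rw [ih β hβ (hδ.mem hβ) (hδ'.mem hβ') (h.restrict hR hδ hβ hu) (h'.restrict hR hδ' hβ' hu')]
      exact hβ'
    · intro hβ'
      obtain ⟨u, hu'⟩ := h'.1 β hβ'
      obtain ⟨β₀, hβ, hu⟩ := (h.2.1 u).1 ((h'.2.1 u).2 ⟨β, hβ', hu'⟩)
      rw [← ih β₀ hβ (hδ.mem hβ) (hδ'.mem hβ') (h.restrict hR hδ hβ hu)
        (h'.restrict hR hδ' hβ' hu')]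
      exact hβ

/-- `t` has height `δ` -/
def LvW (W : Set ZFSet.{0}) (R t δ : ZFSet.{0}) : Prop := ∃ f ∈ W, Lvx R t δ f

theorem HtIn.lvW (h : HtIn W T R t δ) : LvW W R t δ := by
  obtain ⟨-, f, hf, h1, h2, h3⟩ := h
  have hm : ∀ β u, pair β u ∈ f → β ∈ δ := fun β u h => (pair_mem_prod.1 (h1.1 h)).1
  exact ⟨f, hf, fun β hβ => (h1.2 β hβ).exists, fun u => (h2 u).trans
    ⟨fun ⟨β, h⟩ => ⟨β, hm _ _ h, h⟩, fun ⟨β, _, h⟩ => ⟨β, h⟩⟩, fun β _ β' _ u v => h3 β β' u v,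
    fun β hβ u v h h' => (h1.2 β hβ).unique h h'⟩

theorem LvW.below (hR : StrictPO T R) (h : LvW W R t δ) (hδ : δ.IsOrdinal) (hγ : γ.IsOrdinal)
    (hs : γ ⊆ δ) : ∃ v, (v = t ∨ pair v t ∈ R) ∧ LvW W R v γ := by
  rcases (hγ.subset_iff_eq_or_mem hδ).1 hs with rfl | hm
  · exact ⟨t, Or.inl rfl, h⟩
  · obtain ⟨f, hf, h⟩ := h
    obtain ⟨v, hv⟩ := h.1 γ hm
    exact ⟨v, Or.inr ((h.2.1 v).2 ⟨γ, hm, hv⟩), f, hf, h.restrict hR hδ hm hv⟩

theorem LvW.pos (hR : StrictPO T R) {f : ZFSet.{0}} (h : Lvx R t δ f) (hδ : δ.IsOrdinal)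
    (hγ : γ.IsOrdinal) (hv : pair v t ∈ R) (h' : LvW W R v γ) : γ ∈ δ ∧ pair γ v ∈ f := by
  obtain ⟨β, hβ, h1⟩ := (h.2.1 v).1 hv
  obtain ⟨f', -, h'⟩ := h'
  rw [Lvx.uniq hR hγ (hδ.mem hβ) h' (h.restrict hR hδ hβ h1)]
  exact ⟨hβ, h1⟩

theorem LvW.eq (hR : StrictPO T R) (h : LvW W R t δ) (hδ : δ.IsOrdinal) (hγ : γ.IsOrdinal)
    (hv : v = t ∨ pair v t ∈ R) (hv' : v' = t ∨ pair v' t ∈ R) (h1 : LvW W R v γ)
    (h2 : LvW W R v' γ) : v = v' := by
  obtain ⟨f, hf, h⟩ := h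
  rcases hv with rfl | hv <;> rcases hv' with rfl | hv'
  · rfl
  · obtain ⟨g, -, h1⟩ := h1
    exact absurd (LvW.pos hR h1 hγ hγ hv' h2).1 (mem_irrefl _)
  · obtain ⟨g, -, h2⟩ := h2
    exact absurd (LvW.pos hR h2 hγ hγ hv h1).1 (mem_irrefl _)
  · have e1 := LvW.pos hR h hδ hγ hv h1
    have e2 := LvW.pos hR h hδ hγ hv' h2
    exact h.2.2.2 γ e1.1 _ _ e1.2 e2.2

theorem le_trans' (hR : StrictPO T R) {a b c : ZFSet.{0}} (h : a = b ∨ pair a b ∈ R)
    (h' : b = c ∨ pair b c ∈ R) : a = c ∨ pair a c ∈ R := by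
  rcases h with rfl | h
  · exact h'
  · rcases h' with rfl | h'
    · exact Or.inr h
    · exact Or.inr (hR.2.2 _ _ _ h h')

theorem BranchIn.mem {κ b : ZFSet.{0}} (hR : StrictPO T R) (hκ : κ.IsOrdinal)
    (hb : BranchIn W T R κ b) (ht : t ∈ b) (h : LvW W R t δ) (hδ : δ.IsOrdinal) (hγ : γ ∈ κ)
    (hv : v = t ∨ pair v t ∈ R) (h1 : LvW W R v γ) : v ∈ b := by
  obtain ⟨w, hw, h2⟩ := hb.2.2 γ hγ
  rcases hb.2.1 w hw t ht with e | e | e
  · rw [h.eq hR hδ (hκ.mem hγ) hv (Or.inl e) h1 h2.lvW]; exact hw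
  · rw [h.eq hR hδ (hκ.mem hγ) hv (Or.inr e) h1 h2.lvW]; exact hw
  · rw [h2.lvW.eq hR (hκ.mem hγ) (hκ.mem hγ) (le_trans' hR hv (Or.inr e)) (Or.inl rfl) h1 h2.lvW]
    exact hw

end External

variable {M : Set ZFSet.{0}} [hM : Fact (CTM M)]
variable {Γ : Type 1} [Ctx M Γ]

theorem ffapp2 {P : M → M → XM M → Prop} (h : FF M (fun (p : M × M) x => P p.1 p.2 x))
    {f g : Γ → M} (hf : F M f) (hg : F M g) : FF M (fun γ x => P (f γ) (g γ) x) :=
  h.comp (m := fun γ => (f γ, g γ)) (CM.pair (CM.of hf) hg)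

theorem ffapp3 {P : M → M → M → XM M → Prop}
    (h : FF M (fun (p : (M × M) × M) x => P p.1.1 p.1.2 p.2 x))
    {f g k : Γ → M} (hf : F M f) (hg : F M g) (hk : F M k) :
    FF M (fun γ x => P (f γ) (g γ) (k γ) x) :=
  h.comp (m := fun γ => ((f γ, g γ), k γ)) (CM.pair (CM.pair (CM.of hf) hg) hk)

/-- the level predicate in the forcing language -/
def Lv (R t δ : M) (x : XM M) : Prop := ∃ f : M,
  (∀ β : M, β.1 ∈ δ.1 → ∃ u : M, pair β.1 (val x.1 u.1) ∈ val x.1 f.1) ∧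
  (∀ u : M, pair (val x.1 u.1) (val x.1 t.1) ∈ val x.1 R.1 ↔
    ∃ β : M, β.1 ∈ δ.1 ∧ pair β.1 (val x.1 u.1) ∈ val x.1 f.1) ∧
  (∀ β β' u v : M, β.1 ∈ δ.1 → β'.1 ∈ δ.1 → pair β.1 (val x.1 u.1) ∈ val x.1 f.1 →
    pair β'.1 (val x.1 v.1) ∈ val x.1 f.1 →
      (β.1 ∈ β'.1 ↔ pair (val x.1 u.1) (val x.1 v.1) ∈ val x.1 R.1)) ∧
  ∀ β u v : M, β.1 ∈ δ.1 → pair β.1 (val x.1 u.1) ∈ val x.1 f.1 →
    pair β.1 (val x.1 v.1) ∈ val x.1 f.1 → val x.1 u.1 = val x.1 v.1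

theorem ff_lv (R : M) : FF M (fun (p : M × M) x => Lv R p.1 p.2 x) := by
  unfold Lv
  repeat' (first | with_reducible apply FF.not | with_reducible apply FF.and | with_reducible apply FF.or | with_reducible apply FF.iff | with_reducible apply FF.ex | with_reducible apply FF.all | with_reducible apply FF.imp | with_reducible apply FF.seg | with_reducible apply FF.opn | with_reducible apply FF.const | with_reducible apply tmem | with_reducible apply teq | with_reducible apply Tm.pair | with_reducible apply Tm.val | with_reducible apply Tm.gnd | with_reducible apply D.not | with_reducible apply D.and | with_reducible apply D.or | with_reducible apply D.iff | with_reducible apply D.ex | with_reducible apply D.all | with_reducible apply D.imp | with_reducible apply D.subset | with_reducible apply D.mem | with_reducible apply D.eq | with_reducible apply F.pair | with_reducible apply F.up | with_reducible apply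 F.succ  | with_reducible exact F.const _ | exact F.var 0 | exact F.var 1 | exact F.var 2 | exact F.var 3 | exact F.var 4 | exact F.var 5 | exact F.var 6 | exact F.var 7 | exact F.var 8 | exact F.var 9 | exact F.var 10 | exact F.var 11 | exact F.var 12 | exact F.var 13)

theorem val_mem (x : XM M) (τ : M) : val x.1 τ.1 ∈ Ext M x.1 := ⟨τ, τ.2, rfl⟩

theorem lv_iff (R t δ : M) (x : XM M) :
    Lv R t δ x ↔ LvW (Ext M x.1) (val x.1 R.1) (val x.1 t.1) δ.1 := by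
  constructor
  · rintro ⟨f, h1, h2, h3, h4⟩
    have nm : ∀ β u, pair β u ∈ val x.1 f.1 → ∃ τ : M, u = val x.1 τ.1 := fun β u h =>
      ext_name (ext_pair (val_mem x f) h).2
    refine ⟨_, val_mem x f, fun β hβ => ?_, fun u => ⟨fun h => ?_, ?_⟩,
      fun β hβ β' hβ' u v h h' => ?_, fun β hβ u v h h' => ?_⟩
    · obtain ⟨u, hu⟩ := h1 (el δ hβ) hβ
      exact ⟨_, hu⟩
    · obtain ⟨τ, rfl⟩ := ext_name (ext_pair (val_mem x R) h).1
      obtain ⟨β, h⟩ := (h2 τ).1 h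
      exact ⟨β, h⟩
    · rintro ⟨β, hβ, h⟩
      obtain ⟨τ, rfl⟩ := nm _ _ h
      exact (h2 τ).2 ⟨el δ hβ, hβ, h⟩
    · obtain ⟨τ, rfl⟩ := nm _ _ h
      obtain ⟨τ', rfl⟩ := nm _ _ h'
      exact h3 (el δ hβ) (el δ hβ') τ τ' hβ hβ' h h'
    · obtain ⟨τ, rfl⟩ := nm _ _ h
      obtain ⟨τ', rfl⟩ := nm _ _ h'
      exact h4 (el δ hβ) τ τ' hβ h h'
  · rintro ⟨f, hf, h1, h2, h3, h4⟩
    obtain ⟨φ, rfl⟩ := ext_name hf
    refine ⟨φ, fun β hβ => ?_, fun u => (h2 _).trans ⟨fun ⟨β, hβ, h⟩ => ⟨el δ hβ, hβ, h⟩,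
      fun ⟨β, hβ, h⟩ => ⟨β, hβ, h⟩⟩, fun β β' u v hβ hβ' => h3 _ hβ _ hβ' _ _,
      fun β u v hβ => h4 _ hβ _ _⟩
    obtain ⟨u, hu⟩ := h1 _ hβ
    obtain ⟨τ, rfl⟩ := ext_name (ext_pair hf hu).2
    exact ⟨τ, hu⟩

/-- the nodes coded by `ξ` and `η` have a common predecessor at level `γ` -/
def Sim (R e ξ η γ : M) (x : XM M) : Prop := ∃ t u v : M,
  pair (val x.1 t.1) ξ.1 ∈ val x.1 e.1 ∧ pair (val x.1 u.1) η.1 ∈ val x.1 e.1 ∧
  (val x.1 v.1 = val x.1 t.1 ∨ pair (val x.1 v.1) (val x.1 t.1) ∈ val x.1 R.1) ∧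
  (val x.1 v.1 = val x.1 u.1 ∨ pair (val x.1 v.1) (val x.1 u.1) ∈ val x.1 R.1) ∧ Lv R v γ x

theorem ff_sim (R e : M) : FF M (fun (p : (M × M) × M) x => Sim R e p.1.1 p.1.2 p.2 x) := by
  unfold Sim
  repeat' (first | with_reducible apply ffapp2 (ff_lv R) | with_reducible apply FF.not | with_reducible apply FF.and | with_reducible apply FF.or | with_reducible apply FF.iff | with_reducible apply FF.ex | with_reducible apply FF.all | with_reducible apply FF.imp | with_reducible apply FF.seg | with_reducible apply FF.opn | with_reducible apply FF.const | with_reducible apply tmem | with_reducible apply teq | with_reducible apply Tm.pair | with_reducible apply Tm.val | with_reducible apply Tm.gnd | with_reducible apply D.not | with_reducible apply D.and | with_reducible apply D.or | with_reducible apply D.iff | with_reducible apply D.ex | with_reducible apply D.all | with_reducible apply D.imp | with_reducible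 apply D.subset | with_reducible apply D.mem | with_reducible apply D.eq | with_reducible apply F.pair | with_reducible apply F.up | with_reducible apply F.succ  | with_reducible exact F.const _ | exact F.var 0 | exact F.var 1 | exact F.var 2 | exact F.var 3 | exact F.var 4 | exact F.var 5 | exact F.var 6 | exact F.var 7 | exact F.var 8 | exact F.var 9 | exact F.var 10 | exact F.var 11 | exact F.var 12 | exact F.var 13)

/-- the node coded by `ξ` lies on the branch number `α`, at a level at least `γ` -/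
def Inn (κ R e g α ξ γ : M) (x : XM M) : Prop := ∃ b t δ : M,
  pair α.1 (val x.1 b.1) ∈ val x.1 g.1 ∧ val x.1 t.1 ∈ val x.1 b.1 ∧
  pair (val x.1 t.1) ξ.1 ∈ val x.1 e.1 ∧ γ.1 ⊆ δ.1 ∧ δ.1 ∈ κ.1 ∧ Lv R t δ x

theorem ff_inn (κ R e g : M) :
    FF M (fun (p : (M × M) × M) x => Inn κ R e g p.1.1 p.1.2 p.2 x) := by
  unfold Inn
  repeat' (first | with_reducible apply ffapp2 (ff_lv R) | with_reducible apply FF.not | with_reducible apply FF.and | with_reducible apply FF.or | with_reducible apply FF.iff | with_reducible apply FF.ex | with_reducible apply FF.all | with_reducible apply FF.imp | with_reducible apply FF.seg | with_reducible apply FF.opn | with_reducible apply FF.const | with_reducible apply tmem | with_reducible apply teq | with_reducible apply Tm.pair | with_reducible apply Tm.val | with_reducible apply Tm.gnd | with_reducible apply D.not | with_reducible apply D.and | with_reducible apply D.or | with_reducible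 apply D.iff | with_reducible apply D.ex | with_reducible apply D.all | with_reducible apply D.imp | with_reducible apply D.subset | with_reducible apply D.mem | with_reducible apply D.eq | with_reducible apply F.pair | with_reducible apply F.up | with_reducible apply F.succ  | with_reducible exact F.const _ | exact F.var 0 | exact F.var 1 | exact F.var 2 | exact F.var 3 | exact F.var 4 | exact F.var 5 | exact F.var 6 | exact F.var 7 | exact F.var 8 | exact F.var 9 | exact F.var 10 | exact F.var 11 | exact F.var 12 | exact F.var 13)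

theorem wkh_of_forced {κ lam : M} (hκ : IsSuccIn M (om : M).1 κ.1) (hl : IsSuccIn M κ.1 lam.1)
    {S N : M → M → M → XM M → Prop}
    (hS : FF M (fun (p : (M × M) × M) x => S p.1.1 p.1.2 p.2 x))
    (hN : FF M (fun (p : (M × M) × M) x => N p.1.1 p.1.2 p.2 x)) (x₀ : XM M)
    (h : (∀ ξ η γ : M, γ.1 ∈ κ.1 → S ξ η γ x₀ → S η ξ γ x₀) ∧
      (∀ ξ η ζ γ : M, γ.1 ∈ κ.1 → S ξ η γ x₀ → S η ζ γ x₀ → S ξ ζ γ x₀) ∧
      (∀ ξ η γ γ' : M, γ.1 ∈ κ.1 → γ'.1 ∈ γ.1 → S ξ η γ x₀ → S ξ η γ' x₀) ∧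
      (∀ α : M, α.1 ∈ lam.1 → ∀ γ : M, γ.1 ∈ κ.1 → ∃ ξ : M, ξ.1 ∈ κ.1 ∧ N α ξ γ x₀) ∧
      (∀ α ξ γ γ' : M, γ.1 ⊆ γ'.1 → N α ξ γ' x₀ → N α ξ γ x₀) ∧
      (∀ α : M, α.1 ∈ lam.1 → ∀ ξ η γ : M, γ.1 ∈ κ.1 → N α ξ γ x₀ → N α η γ x₀ → S ξ η γ x₀) ∧
      (∀ α : M, α.1 ∈ lam.1 → ∀ β : M, β.1 ∈ lam.1 → α ≠ β → ∃ γ : M, γ.1 ∈ κ.1 ∧
        ∀ ξ η : M, N α ξ γ x₀ → N β η γ x₀ → ¬ S ξ η γ x₀)) : WKH M := by
  have ko := hκ.2.1
  have hH : FF M (fun (_ : M) x => (∀ ξ η γ : M, γ.1 ∈ κ.1 → S ξ η γ x → S η ξ γ x) ∧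
      (∀ ξ η ζ γ : M, γ.1 ∈ κ.1 → S ξ η γ x → S η ζ γ x → S ξ ζ γ x) ∧
      (∀ ξ η γ γ' : M, γ.1 ∈ κ.1 → γ'.1 ∈ γ.1 → S ξ η γ x → S ξ η γ' x) ∧
      (∀ α : M, α.1 ∈ lam.1 → ∀ γ : M, γ.1 ∈ κ.1 → ∃ ξ : M, ξ.1 ∈ κ.1 ∧ N α ξ γ x) ∧
      (∀ α ξ γ γ' : M, γ.1 ⊆ γ'.1 → N α ξ γ' x → N α ξ γ x) ∧
      (∀ α : M, α.1 ∈ lam.1 → ∀ ξ η γ : M, γ.1 ∈ κ.1 → N α ξ γ x → N α η γ x → S ξ η γ x) ∧
      (∀ α : M, α.1 ∈ lam.1 → ∀ β : M, β.1 ∈ lam.1 → α ≠ β → ∃ γ : M, γ.1 ∈ κ.1 ∧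
        ∀ ξ η : M, N α ξ γ x → N β η γ x → ¬ S ξ η γ x)) := by
    repeat' (first | with_reducible apply ffapp3 hS | with_reducible apply ffapp3 hN | with_reducible apply FF.not | with_reducible apply FF.and | with_reducible apply FF.or | with_reducible apply FF.iff | with_reducible apply FF.ex | with_reducible apply FF.all | with_reducible apply FF.imp | with_reducible apply FF.seg | with_reducible apply FF.opn | with_reducible apply FF.const | with_reducible apply tmem | with_reducible apply teq | with_reducible apply Tm.pair | with_reducible apply Tm.val | with_reducible apply Tm.gnd | with_reducible apply D.not | with_reducible apply D.and | with_reducible apply D.or | with_reducible apply D.iff | with_reducible apply D.ex | with_reducible apply D.all | with_reducible apply D.imp | with_reducible apply D.subset | with_reducible apply D.mem | with_reducible apply D.eq | with_reducible apply F.pair | with_reducible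 apply F.up | with_reducible apply F.succ  | with_reducible exact F.const _ | exact F.var 0 | exact F.var 1 | exact F.var 2 | exact F.var 3 | exact F.var 4 | exact F.var 5 | exact F.var 6 | exact F.var 7 | exact F.var 8 | exact F.var 9 | exact F.var 10 | exact F.var 11 | exact F.var 12 | exact F.var 13)
  obtain ⟨s₀, hs₀, hf⟩ := hH.op memp x₀ h
  let FS : M → M → M → M → Prop := fun ξ η γ s => Frc (S ξ η γ) s
  let FN : M → M → M → M → Prop := fun α ξ γ s => Frc (N α ξ γ) s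
  have hFS : D M (fun p : ((M × M) × M) × M => FS p.1.1.1 p.1.1.2 p.1.2 p.2) := hS.df
  have hFN : D M (fun p : ((M × M) × M) × M => FN p.1.1.1 p.1.1.2 p.1.2 p.2) := hN.df
  let Fam : M → M → Prop := fun q α => s₀.1 ⊆ q.1 ∧
    ∀ γ : M, γ.1 ∈ κ.1 → ∃ ξ : M, ξ.1 ∈ κ.1 ∧ FN α ξ γ q
  have hFam : D M (fun p : M × M => Fam p.1 p.2) := by
    simp only [Fam]
    repeat' (first | with_reducible apply app4 hFN | with_reducible apply D.not | with_reducible apply D.and | with_reducible apply D.or | with_reducible apply D.iff | with_reducible apply D.ex | with_reducible apply D.all | with_reducible apply D.imp | with_reducible apply D.subset | with_reducible apply D.mem | with_reducible apply D.eq | with_reducible apply F.pair | with_reducible apply F.up | with_reducible apply F.succ  | with_reducible exact F.const _ | exact F.var 0 | exact F.var 1 | exact F.var 2 | exact F.var 3 | exact F.var 4 | exact F.var 5 | exact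 F.var 6 | exact F.var 7 | exact F.var 8 | exact F.var 9 | exact F.var 10 | exact F.var 11 | exact F.var 12 | exact F.var 13)
  have h1 : ∀ α : M, α.1 ∈ lam.1 → ∃ q : M, q.1 ∈ (cnd : M).1 ∧ Fam q α := by
    intro α hα
    by_contra hcon
    refine hκ.2.2.1 ((union_le (A := κ) (B := om) (C := cnd) (Q := fun q γ => s₀.1 ⊆ q.1 ∧
      ∃ ξ : M, ξ.1 ∈ κ.1 ∧ FN α ξ γ q) (by repeat' (first | with_reducible apply app4 hFN | with_reducible apply D.not | with_reducible apply D.and | with_reducible apply D.or | with_reducible apply D.iff | with_reducible apply D.ex | with_reducible apply D.all | with_reducible apply D.imp | with_reducible apply D.subset | with_reducible apply D.mem | with_reducible apply D.eq | with_reducible apply F.pair | with_reducible apply F.up | with_reducible apply F.succ  | with_reducible exact F.const _ | exact F.var 0 | exact F.var 1 | exact F.var 2 | exact F.var 3 | exact F.var 4 | exact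 F.var 5 | exact F.var 6 | exact F.var 7 | exact F.var 8 | exact F.var 9 | exact F.var 10 | exact F.var 11 | exact F.var 12 | exact F.var 13)) (fun γ hγ => ?_)
      fun q hq A hA => ?_).trans cnd_om)
    · obtain ⟨ξ, hξ, h2⟩ := h.2.2.2.1 α hα γ hγ
      obtain ⟨q, hq, h3, h4⟩ := (hN.op ((α, ξ), γ)).ext (x := x₀) h2 hs₀
      exact ⟨q, hq.mem_cnd, h3, ξ, hξ, h4⟩
    · by_cases hs : s₀.1 ⊆ q.1
      · have : ¬ ∀ γ : M, γ.1 ∈ κ.1 → ∃ ξ : M, ξ.1 ∈ κ.1 ∧ FN α ξ γ q :=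
          fun h => hcon ⟨q, hq, hs, h⟩
        push Not at this
        obtain ⟨γ, hγ, h2⟩ := this
        refine (le_of_subset (B := γ) fun z hz => ?_).trans (hκ.2.2.2 _ hγ)
        obtain ⟨h3, -, ξ, hξ, h4⟩ := (hA (el A hz)).1 hz
        by_contra h5
        exact h2 ξ hξ fun y hy => (hf y (hy.mono hs₀.isCond hs)).2.2.2.2.1 α ξ γ (el A hz)
          (((ko.mem h3).notMem_iff_subset (ko.mem hγ)).1 h5) (h4 y hy)
      · exact le_of_subset fun z hz => absurd ((hA (el A hz)).1 hz).2.1 hs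
  obtain ⟨p, hp, I, hI, hn⟩ : ∃ p : M, p.1 ∈ (cnd : M).1 ∧ ∃ I : M,
      (∀ a : M, a.1 ∈ I.1 ↔ a.1 ∈ lam.1 ∧ Fam p a) ∧ ¬ LeIn M I.1 κ.1 := by
    by_contra hcon
    push Not at hcon
    exact hl.2.2.1 ((union_le hFam h1 hcon).trans (cnd_kappa hκ))
  have hIl : I.1 ⊆ lam.1 := fun z hz => ((hI (el I hz)).1 hz).1
  obtain ⟨α₀, hα₀⟩ : ∃ α₀ : M, α₀.1 ∈ I.1 := by
    by_contra hcon
    exact hn (le_of_subset fun z hz => absurd ⟨el I hz, hz⟩ hcon)
  have hs : s₀.1 ⊆ p.1 := ((hI _).1 hα₀).2.1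
  have hf' := fun (y : XM M) (hy : Seg p y) => hf y (hy.mono hs₀.isCond hs)
  refine wkh_of hκ hl hIl hn (S := fun ξ η γ => FS ξ η γ p) (N := fun α ξ γ => FN α ξ γ p)
    (by repeat' (first | with_reducible apply app4 hFS | with_reducible apply D.not | with_reducible apply D.and | with_reducible apply D.or | with_reducible apply D.iff | with_reducible apply D.ex | with_reducible apply D.all | with_reducible apply D.imp | with_reducible apply D.subset | with_reducible apply D.mem | with_reducible apply D.eq | with_reducible apply F.pair | with_reducible apply F.up | with_reducible apply F.succ  | with_reducible exact F.const _ | exact F.var 0 | exact F.var 1 | exact F.var 2 | exact F.var 3 | exact F.var 4 | exact F.var 5 | exact F.var 6 | exact F.var 7 | exact F.var 8 | exact F.var 9 | exact F.var 10 | exact F.var 11 | exact F.var 12 | exact F.var 13)) (by repeat' (first | with_reducible apply app4 hFN | with_reducible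 apply D.not | with_reducible apply D.and | with_reducible apply D.or | with_reducible apply D.iff | with_reducible apply D.ex | with_reducible apply D.all | with_reducible apply D.imp | with_reducible apply D.subset | with_reducible apply D.mem | with_reducible apply D.eq | with_reducible apply F.pair | with_reducible apply F.up | with_reducible apply F.succ  | with_reducible exact F.const _ | exact F.var 0 | exact F.var 1 | exact F.var 2 | exact F.var 3 | exact F.var 4 | exact F.var 5 | exact F.var 6 | exact F.var 7 | exact F.var 8 | exact F.var 9 | exact F.var 10 | exact F.var 11 | exact F.var 12 | exact F.var 13))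
    (fun ξ η γ hγ h y hy => (hf' y hy).1 _ _ _ hγ (h y hy))
    (fun ξ η ζ γ hγ h h' y hy => (hf' y hy).2.1 _ _ _ _ hγ (h y hy) (h' y hy))
    (fun ξ η γ γ' hγ hγ' h y hy => (hf' y hy).2.2.1 _ _ _ _ hγ hγ' (h y hy))
    (fun α hα => ((hI α).1 hα).2.2)
    (fun α ξ γ γ' hγ hγ' h y hy => (hf' y hy).2.2.2.2.1 _ _ _ _
      ((ko.mem hγ).subset_of_mem hγ') (h y hy))
    (fun α hα ξ η γ hγ h h' y hy => (hf' y hy).2.2.2.2.2.1 α (hIl hα) _ _ _ hγ (h y hy) (h' y hy))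
    fun α hα β hβ hne => ?_
  obtain ⟨y, hy⟩ := exists_seg ((mem_cnd p).1 hp)
  obtain ⟨γ, hγ, h⟩ := (hf' y hy).2.2.2.2.2.2 α (hIl hα) β (hIl hβ) hne
  exact ⟨γ, hγ, fun ξ η h1 h2 h3 => h ξ η (h1 y hy) (h2 y hy) (h3 y hy)⟩

theorem wkh_down (x : XM M) (h : WKH (Ext M x.1)) : WKH M := by
  obtain ⟨κ, lam', hκ, hl, T, hT, R, hR, hpo, hht, -, ⟨e, he, ⟨he1, he2⟩, -⟩, B, hB, hbr,
    g, hg, hg1, hg2⟩ := h
  have ko := hκ.2.1
  lift κ to M using ord_mem ko hκ.1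
  lift lam' to M using ord_mem hl.2.1 hl.1
  have hκ' : IsSuccIn M (om : M).1 κ.1 := by
    refine ⟨κ.2, ko, fun h => hκ.2.2.1 (om_eq (M := M) ▸ le_up h), fun α hα => ?_⟩
    have := hκ.2.2.2 α hα
    rw [← om_eq (M := M)] at this
    exact (le_down (a := el κ hα) this).trans cnd_om
  obtain ⟨lam, hlam, hsub⟩ := exists_succ (μ := κ) hl.2.1 fun h => hl.2.2.1 (le_up h)
  obtain ⟨R, rfl⟩ := ext_name hR
  obtain ⟨e, rfl⟩ := ext_name he
  obtain ⟨g, rfl⟩ := ext_name hg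
  have lvT : ∀ t ξ, pair t ξ ∈ val x.1 e.1 →
      ∃ δ, δ.IsOrdinal ∧ LvW (Ext M x.1) (val x.1 R.1) t δ := fun t ξ h => by
    obtain ⟨δ, hδ, h⟩ := hht t (func_mem he1 h).1
    exact ⟨δ, ko.mem hδ, h.lvW⟩
  have nmle : ∀ v (t : M), (v = val x.1 t.1 ∨ pair v (val x.1 t.1) ∈ val x.1 R.1) →
      ∃ τ : M, v = val x.1 τ.1 := by
    rintro v t (h | h)
    · exact ⟨t, h⟩
    · exact ext_name (ext_pair hR h).1
  refine wkh_of_forced hκ' hlam (ff_sim R e) (ff_inn κ R e g) x ⟨?_, ?_, ?_, ?_, ?_, ?_, ?_⟩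
  · rintro ξ η γ - ⟨t, u, v, h1, h2, h3, h4, h5⟩
    exact ⟨u, t, v, h2, h1, h4, h3, h5⟩
  · rintro ξ η ζ γ hγ ⟨t, u, v, h1, h2, h3, h4, h5⟩ ⟨u', w, v', h1', h2', h3', h4', h5'⟩
    have e1 := he2 _ _ _ h2 h1'
    obtain ⟨δ, hδ, h6⟩ := lvT _ _ h2
    have e2 := h6.eq hpo hδ (ko.mem hγ) h4 (e1 ▸ h3') ((lv_iff _ _ _ _).1 h5)
      ((lv_iff _ _ _ _).1 h5')
    exact ⟨t, w, v, h1, h2', h3, e2 ▸ h4', h5⟩
  · rintro ξ η γ γ' hγ hγ' ⟨t, u, v, h1, h2, h3, h4, h5⟩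
    obtain ⟨v', h6, h7⟩ := ((lv_iff _ _ _ _).1 h5).below hpo (ko.mem hγ) ((ko.mem hγ).mem hγ')
      ((ko.mem hγ).subset_of_mem hγ')
    obtain ⟨τ, rfl⟩ := nmle _ _ h6
    exact ⟨t, u, τ, h1, h2, le_trans' hpo h6 h3, le_trans' hpo h6 h4, (lv_iff _ _ _ _).2 h7⟩
  · intro α hα γ hγ
    obtain ⟨b, hb, -⟩ := hg1.2 _ (hsub hα)
    have hb' := hbr b (func_mem hg1 hb).2
    obtain ⟨t, ht, h1⟩ := hb'.2.2 _ hγ
    obtain ⟨ξ, hξ, -⟩ := he1.2 _ (hb'.1 ht)
    obtain ⟨b, rfl⟩ := ext_name (ext_pair hg hb).2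
    obtain ⟨t, rfl⟩ := ext_name (ext_pair he hξ).1
    exact ⟨el κ (func_mem he1 hξ).2, (func_mem he1 hξ).2, b, t, γ, hb, ht, hξ, fun _ h => h, hγ,
      (lv_iff _ _ _ _).2 h1.lvW⟩
  · rintro α ξ γ γ' hs ⟨b, t, δ, h1, h2, h3, h4, h5⟩
    exact ⟨b, t, δ, h1, h2, h3, fun _ h => h4 (hs h), h5⟩
  · rintro α - ξ η γ hγ ⟨b, t, δ, h1, h2, h3, h4, h5, h6⟩ ⟨b', u, δ', h1', h2', h3', h4', h5', h6'⟩
    rw [← func_uniq hg1 h1 h1'] at h2'
    have hb' := hbr _ (func_mem hg1 h1).2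
    obtain ⟨v, h7, h8⟩ := ((lv_iff _ _ _ _).1 h6).below hpo (ko.mem h5) (ko.mem hγ) h4
    obtain ⟨v', h7', h8'⟩ := ((lv_iff _ _ _ _).1 h6').below hpo (ko.mem h5') (ko.mem hγ) h4'
    obtain ⟨τ, rfl⟩ := nmle _ _ h7
    obtain ⟨τ', rfl⟩ := nmle _ _ h7'
    rcases hb'.2.1 _ h2 _ h2' with e1 | e1 | e1
    · exact ⟨t, u, τ, h3, h3', h7, le_trans' hpo h7 (Or.inl e1), (lv_iff _ _ _ _).2 h8⟩
    · exact ⟨t, u, τ, h3, h3', h7, le_trans' hpo h7 (Or.inr e1), (lv_iff _ _ _ _).2 h8⟩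
    · exact ⟨t, u, τ', h3, h3', le_trans' hpo h7' (Or.inr e1), h7', (lv_iff _ _ _ _).2 h8'⟩
  · intro α hα β hβ hne
    obtain ⟨b, hb, -⟩ := hg1.2 _ (hsub hα)
    obtain ⟨b', hb', -⟩ := hg1.2 _ (hsub hβ)
    have br := hbr b (func_mem hg1 hb).2
    have br' := hbr b' (func_mem hg1 hb').2
    have hbb : b ≠ b' := fun e => hne (Subtype.ext (hg2 _ _ _ hb (e ▸ hb')))
    have same : ∀ c, BranchIn (Ext M x.1) T (val x.1 R.1) κ.1 c → ∀ w ∈ c, ∀ v ∈ c, ∀ γ ∈ κ.1,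
        LvW (Ext M x.1) (val x.1 R.1) w γ → LvW (Ext M x.1) (val x.1 R.1) v γ → w = v := by
      intro c hc w hw v hv γ hγ h1 h2
      rcases hc.2.1 w hw v hv with e | e | e
      · exact e
      · exact h2.eq hpo (ko.mem hγ) (ko.mem hγ) (Or.inr e) (Or.inl rfl) h1 h2
      · exact h1.eq hpo (ko.mem hγ) (ko.mem hγ) (Or.inl rfl) (Or.inr e) h1 h2
    obtain ⟨w, hw, hw'⟩ : ∃ w, (w ∈ b ∨ w ∈ b') ∧ ¬ (w ∈ b ∧ w ∈ b') := by
      by_contra hcon
      push Not at hcon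
      exact hbb (ZFSet.ext fun w => ⟨fun h => (hcon w (Or.inl h)).2, fun h => (hcon w (Or.inr h)).1⟩)
    obtain ⟨γ, hγ, hwγ⟩ := hht w (hw.elim (fun h => br.1 h) fun h => br'.1 h)
    refine ⟨el κ hγ, hγ, ?_⟩
    rintro ξ η ⟨c, t, δ, h1, h2, h3, -, h5, h6⟩ ⟨c', u, δ', h1', h2', h3', -, h5', h6'⟩
      ⟨t', u', v, g1, g2, g3, g4, g5⟩
    rw [func_uniq hg1 h1 hb] at h2
    rw [func_uniq hg1 h1' hb'] at h2'
    rw [he2 _ _ _ g1 h3] at g3
    rw [he2 _ _ _ g2 h3'] at g4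
    have g6 := (lv_iff _ _ _ _).1 g5
    have m1 := br.mem hpo ko h2 ((lv_iff _ _ _ _).1 h6) (ko.mem h5) hγ g3 g6
    have m2 := br'.mem hpo ko h2' ((lv_iff _ _ _ _).1 h6') (ko.mem h5') hγ g4 g6
    have : w = val x.1 v.1 := hw.elim (fun h => same b br w h _ m1 γ hγ hwγ.lvW g6)
      fun h => same b' br' w h _ m2 γ hγ hwγ.lvW g6
    exact hw' (this ▸ ⟨m1, m2⟩)

theorem main (M : Set ZFSet.{0}) (hM : CTM M) (h : ¬ WKH M) (x : ℕ → Bool) (hx : Generic M x) :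
    ¬ WKH (Ext M x) :=
  haveI : Fact (CTM M) := ⟨hM⟩
  fun h' => h (wkh_down ⟨x, hx⟩ h')

end Pool.Agent.H926Z.WK
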