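import Pool.Agent.Helper212.CohenE.Val
import Pool.Agent.Helper212.CohenE.Enum
import Pool.Agent.H926Z.WK.Defs

/-! Recursion, choice and cardinal arithmetic inside a countable transitive model. -/

set_option linter.unusedSectionVars false
set_option linter.unreachableTactic false
set_option linter.unusedTactic false

namespace Pool.Agent.H926Z.WK

open CohenE ZFSet

variable {M : Set ZFSet.{0}} [hM : Fact (CTM M)]
variable {Γ : Type 1} [Ctx M Γ]

/-- an element of an element of `M`, as an element of `M` -/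
def el (a : M) {z : ZFSet.{0}} (h : z ∈ a.1) : M := ⟨z, hM.out.trans _ a.2 _ h⟩

theorem app1 {P : M → Prop} (h : D M P) {f : Γ → M} (hf : F M f) : D M (fun γ => P (f γ)) :=
  D.comp h (CM.of hf)

theorem app2 {P : M → M → Prop} (h : D M (fun p : M × M => P p.1 p.2)) {f g : Γ → M}
    (hf : F M f) (hg : F M g) : D M (fun γ => P (f γ) (g γ)) :=
  D.comp h (m := fun γ => (f γ, g γ)) (CM.pair (CM.of hf) hg)

theorem app3 {P : M → M → M → Prop} (h : D M (fun p : (M × M) × M => P p.1.1 p.1.2 p.2))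
    {f g k : Γ → M} (hf : F M f) (hg : F M g) (hk : F M k) :
    D M (fun γ => P (f γ) (g γ) (k γ)) :=
  D.comp h (m := fun γ => ((f γ, g γ), k γ)) (CM.pair (CM.pair (CM.of hf) hg) hk)

theorem app4 {P : M → M → M → M → Prop}
    (h : D M (fun p : ((M × M) × M) × M => P p.1.1.1 p.1.1.2 p.1.2 p.2))
    {f g k l : Γ → M} (hf : F M f) (hg : F M g) (hk : F M k) (hl : F M l) :
    D M (fun γ => P (f γ) (g γ) (k γ) (l γ)) :=
  D.comp h (m := fun γ => (((f γ, g γ), k γ), l γ))
    (CM.pair (CM.pair (CM.pair (CM.of hf) hg) hk) hl)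

theorem fapp1 {G : M → M} (h : F M G) {f : Γ → M} (hf : F M f) : F M (fun γ => G (f γ)) :=
  F.comp h (CM.of hf)

theorem fapp2 {G : M → M → M} (h : F M (fun p : M × M => G p.1 p.2)) {f g : Γ → M}
    (hf : F M f) (hg : F M g) : F M (fun γ => G (f γ) (g γ)) :=
  F.comp h (m := fun γ => (f γ, g γ)) (CM.pair (CM.of hf) hg)

theorem ofExt {h : Γ → M} {Q : Γ → M → Prop} (hQ : D M (fun p : Γ × M => Q p.1 p.2))
    (hh : ∀ γ (z : M), z.1 ∈ (h γ).1 ↔ Q γ z) : F M h := by
  have h1 : D M (fun p : Γ × M => ∀ z : M, z.1 ∈ p.2.1 ↔ Q p.1 z) :=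
    D.all (D.iff (D.mem F.snd F.snd.w) (D.weak hQ))
  refine D.congr h1 fun p => ?_
  rw [M_ext]
  exact forall_congr' fun z => iff_congr Iff.rfl (hh p.1 z)

/-- unordered pair -/
def mup (a b : M) : M := ⟨{a.1, b.1}, upair_memM a.2 b.2⟩

theorem mem_mup (a b z : M) : z.1 ∈ (mup a b).1 ↔ z = a ∨ z = b := by
  show z.1 ∈ ({a.1, b.1} : ZFSet.{0}) ↔ _
  rw [ZFSet.mem_pair, Subtype.ext_iff, Subtype.ext_iff]

theorem _root_.CohenE.F.up {f g : Γ → M} (hf : F M f) (hg : F M g) :
    F M (fun γ => mup (f γ) (g γ)) :=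
  ofExt (Q := fun γ z => z = f γ ∨ z = g γ) (D.or (D.eq F.snd hf.w) (D.eq F.snd hg.w))
    fun γ z => mem_mup _ _ z

/-- insertion -/
noncomputable def mins (a b : M) : M := ⟨insert a.1 b.1, insert_memM a.2 b.2⟩

theorem mem_mins (a b z : M) : z.1 ∈ (mins a b).1 ↔ z = a ∨ z.1 ∈ b.1 := by
  show z.1 ∈ (insert a.1 b.1 : ZFSet.{0}) ↔ _
  rw [ZFSet.mem_insert_iff, Subtype.ext_iff]

theorem sep1 {Q : M → Prop} (h : D M Q) (a : M) : ∃ b : M, ∀ z : M, z.1 ∈ b.1 ↔ z.1 ∈ a.1 ∧ Q z :=
  exists_sep (Γ := M) (Q := fun _ z => Q z) (app1 h F.snd) memp a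

theorem image1 {G : M → M} (h : F M G) (a : M) :
    ∃ b : M, ∀ w : M, w.1 ∈ b.1 ↔ ∃ z : M, z.1 ∈ a.1 ∧ w = G z :=
  exists_repl (G := fun z w => w = G z) h a fun z _ => ⟨G z, rfl, fun _ h => h⟩

theorem sep2 {Q : M → M → Prop} (h : D M (fun p : M × M => Q p.1 p.2)) (a b : M) :
    ∃ c : M, (∀ z : M, z.1 ∈ c.1 → ∃ x y, z = mpair x y) ∧
      ∀ x y : M, (mpair x y).1 ∈ c.1 ↔ x.1 ∈ a.1 ∧ y.1 ∈ b.1 ∧ Q x y := by
  obtain ⟨c, hc⟩ := sep1 (Q := fun z => ∃ x y, z = mpair x y ∧ Q x y) (by repeat' (first | with_reducible apply app2 h | with_reducible apply D.not | with_reducible apply D.and | with_reducible apply D.or | with_reducible apply D.iff | with_reducible apply D.ex | with_reducible apply D.all | with_reducible apply D.imp | with_reducible apply D.subset | with_reducible apply D.mem | with_reducible apply D.eq | with_reducible apply F.pair | with_reducible apply F.up | with_reducible apply F.succ  | with_reducible exact F.const _ | exact F.var 0 | exact F.var 1 | exact F.var 2 | exact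 F.var 3 | exact F.var 4 | exact F.var 5 | exact F.var 6 | exact F.var 7 | exact F.var 8 | exact F.var 9 | exact F.var 10 | exact F.var 11 | exact F.var 12 | exact F.var 13))
    (mprod a b)
  refine ⟨c, fun z hz => ?_, fun x y => ?_⟩
  · obtain ⟨x, y, e, -⟩ := ((hc z).1 hz).2
    exact ⟨x, y, e⟩
  · rw [hc, pair_mem_mprod, and_assoc]
    refine and_congr Iff.rfl (and_congr Iff.rfl ⟨?_, fun h => ⟨x, y, rfl, h⟩⟩)
    rintro ⟨x', y', e, h⟩
    obtain ⟨rfl, rfl⟩ := mpair_inj.1 e
    exact h

theorem exists_pow (a : M) : ∃ p : M, ∀ y : M, y.1 ∈ p.1 ↔ y.1 ⊆ a.1 := by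
  obtain ⟨p, hp, hp'⟩ := hM.out.power _ a.2
  exact ⟨⟨p, hp⟩, fun y => hp' _ y.2⟩

open Classical in
/-- the set of the `z` with `P z`, if it is in `M` -/
noncomputable def mset (P : M → Prop) : M :=
  if h : ∃ b : M, ∀ z : M, z.1 ∈ b.1 ↔ P z then h.choose else memp

theorem mset_eq {P : M → Prop} {b : M} (h : ∀ z : M, z.1 ∈ b.1 ↔ P z) : mset P = b := by
  have h' : ∃ b : M, ∀ z : M, z.1 ∈ b.1 ↔ P z := ⟨b, h⟩
  rw [mset, dif_pos h', M_ext]
  exact fun z => (h'.choose_spec z).trans (h z).symm

/-- Definable recursion along a well-founded definable set-like relation. -/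
theorem wfrec {r : M → M → Prop} (hwf : WellFounded r) (hr : D M (fun p : M × M => r p.1 p.2))
    (hT : ∀ a : M, ∃ T : M, a.1 ∈ T.1 ∧ ∀ c : M, c.1 ∈ T.1 → ∀ b, r b c → b.1 ∈ T.1)
    {Φ : M → M → M} (hΦ : F M (fun p : M × M => Φ p.1 p.2)) :
    ∃ G : M → M, F M G ∧ ∀ a, ∃ f : M,
      (∀ z : M, z.1 ∈ f.1 ↔ ∃ b, r b a ∧ z = mpair b (G b)) ∧ G a = Φ f a := by
  let G : M → M := hwf.fix fun a ih => Φ (mset fun z => ∃ b, ∃ h : r b a, z = mpair b (ih b h)) a
  have hG : ∀ a, G a = Φ (mset fun z => ∃ b, r b a ∧ z = mpair b (G b)) a := by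
    intro a
    have := hwf.fix_eq (fun a (ih : ∀ b, r b a → M) =>
      Φ (mset fun z => ∃ b, ∃ h : r b a, z = mpair b (ih b h)) a) a
    simpa only [exists_prop] using this
  have hQ : D M (fun p : (M × M) × M => ∃ b w, r b p.1.2 ∧ p.2 = mpair b w) := by repeat' (first | with_reducible apply app2 hr | with_reducible apply D.not | with_reducible apply D.and | with_reducible apply D.or | with_reducible apply D.iff | with_reducible apply D.ex | with_reducible apply D.all | with_reducible apply D.imp | with_reducible apply D.subset | with_reducible apply D.mem | with_reducible apply D.eq | with_reducible apply F.pair | with_reducible apply F.up | with_reducible apply F.succ  | with_reducible exact F.const _ | exact F.var 0 | exact F.var 1 | exact F.var 2 | exact F.var 3 | exact F.var 4 | exact F.var 5 | exact F.var 6 | exact F.var 7 | exact F.var 8 | exact F.var 9 | exact F.var 10 | exact F.var 11 | exact F.var 12 | exact F.var 13)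
  let rs : M → M → M := fun g a => msep g fun z => ∃ b w, r b a ∧ z = mpair b w
  have hrs : F M (fun p : M × M => rs p.1 p.2) :=
    F.sep (Q := fun (p : M × M) z => ∃ b w, r b p.2 ∧ z = mpair b w) hQ (F.var 1)
  have hrs' : ∀ g a z : M, z.1 ∈ (rs g a).1 ↔ z.1 ∈ g.1 ∧ ∃ b w, r b a ∧ z = mpair b w :=
    fun g a z => mem_msep (Q := fun (p : M × M) z => ∃ b w, r b p.2 ∧ z = mpair b w) hQ (g, a) g z
  let Ap : M → Prop := fun g => ∀ a w : M, (mpair a w).1 ∈ g.1 →
    (∀ b, r b a → ∃ w' : M, (mpair b w').1 ∈ g.1) ∧ w = Φ (rs g a) a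
  have hAp : D M Ap := by
    simp only [Ap]
    repeat' (first | with_reducible apply app2 hr | with_reducible apply fapp2 hΦ | with_reducible apply fapp2 hrs | with_reducible apply D.not | with_reducible apply D.and | with_reducible apply D.or | with_reducible apply D.iff | with_reducible apply D.ex | with_reducible apply D.all | with_reducible apply D.imp | with_reducible apply D.subset | with_reducible apply D.mem | with_reducible apply D.eq | with_reducible apply F.pair | with_reducible apply F.up | with_reducible apply F.succ  | with_reducible exact F.const _ | exact F.var 0 | exact F.var 1 | exact F.var 2 | exact F.var 3 | exact F.var 4 | exact F.var 5 | exact F.var 6 | exact F.var 7 | exact F.var 8 | exact F.var 9 | exact F.var 10 | exact F.var 11 | exact F.var 12 | exact F.var 13)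
  have key : ∀ g a : M, (∀ b, r b a → ∃ w' : M, (mpair b w').1 ∈ g.1) →
      (∀ b w, r b a → (mpair b w).1 ∈ g.1 → w = G b) →
      ∀ z : M, z.1 ∈ (rs g a).1 ↔ ∃ b, r b a ∧ z = mpair b (G b) := by
    intro g a h1 h2 z
    rw [hrs']
    constructor
    · rintro ⟨hz, b, w, hb, rfl⟩
      exact ⟨b, hb, by rw [h2 b w hb hz]⟩
    · rintro ⟨b, hb, rfl⟩
      obtain ⟨w, hw⟩ := h1 b hb
      have := h2 b w hb hw
      subst this
      exact ⟨hw, b, _, hb, rfl⟩
  have corr : ∀ g, Ap g → ∀ a w : M, (mpair a w).1 ∈ g.1 → w = G a := by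
    intro g hg a
    induction a using hwf.induction with
    | _ a ih =>
      intro w hw
      rw [hG, mset_eq (key g a (hg a w hw).1 fun b w' hb hw' => ih b hb w' hw')]
      exact (hg a w hw).2
  have ex : ∀ a, ∃ g, Ap g ∧ (mpair a (G a)).1 ∈ g.1 := by
    intro a
    induction a using hwf.induction with
    | _ a ih =>
      obtain ⟨T, haT, hT'⟩ := hT a
      obtain ⟨A, hA⟩ := sep1 (Q := fun b => ∃ g w, Ap g ∧ (mpair b w).1 ∈ g.1)
        (by repeat' (first | with_reducible apply app1 hAp | with_reducible apply D.not | with_reducible apply D.and | with_reducible apply D.or | with_reducible apply D.iff | with_reducible apply D.ex | with_reducible apply D.all | with_reducible apply D.imp | with_reducible apply D.subset | with_reducible apply D.mem | with_reducible apply D.eq | with_reducible apply F.pair | with_reducible apply F.up | with_reducible apply F.succ  | with_reducible exact F.const _ | exact F.var 0 | exact F.var 1 | exact F.var 2 | exact F.var 3 | exact F.var 4 | exact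 F.var 5 | exact F.var 6 | exact F.var 7 | exact F.var 8 | exact F.var 9 | exact F.var 10 | exact F.var 11 | exact F.var 12 | exact F.var 13)) T
      obtain ⟨g₀, hg₀⟩ := exists_repl
        (G := fun b z => ∃ g w, Ap g ∧ (mpair b w).1 ∈ g.1 ∧ z = mpair b w)
        (by repeat' (first | with_reducible apply app1 hAp | with_reducible apply D.not | with_reducible apply D.and | with_reducible apply D.or | with_reducible apply D.iff | with_reducible apply D.ex | with_reducible apply D.all | with_reducible apply D.imp | with_reducible apply D.subset | with_reducible apply D.mem | with_reducible apply D.eq | with_reducible apply F.pair | with_reducible apply F.up | with_reducible apply F.succ  | with_reducible exact F.const _ | exact F.var 0 | exact F.var 1 | exact F.var 2 | exact F.var 3 | exact F.var 4 | exact F.var 5 | exact F.var 6 | exact F.var 7 | exact F.var 8 | exact F.var 9 | exact F.var 10 | exact F.var 11 | exact F.var 12 | exact F.var 13)) A (fun b hb => by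
          obtain ⟨g, w, hg, hw⟩ := ((hA b).1 hb).2
          refine ⟨mpair b w, ⟨g, w, hg, hw, rfl⟩, ?_⟩
          rintro z ⟨g', w', hg', hw', rfl⟩
          rw [corr g hg b w hw, corr g' hg' b w' hw'])
      have hg1 : ∀ b w : M, (mpair b w).1 ∈ (mins (mpair a (G a)) g₀).1 ↔
          (b = a ∨ b.1 ∈ A.1) ∧ w = G b := by
        intro b w
        rw [mem_mins, mpair_inj, hg₀]
        constructor
        · rintro (⟨rfl, rfl⟩ | ⟨b', hb', g, w', hg, hw', e⟩)
          · exact ⟨Or.inl rfl, rfl⟩
          · obtain ⟨rfl, rfl⟩ := mpair_inj.1 e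
            exact ⟨Or.inr hb', corr g hg _ _ hw'⟩
        · rintro ⟨rfl | hb, rfl⟩
          · exact Or.inl ⟨rfl, rfl⟩
          · obtain ⟨g, w, hg, hw⟩ := ((hA b).1 hb).2
            exact Or.inr ⟨b, hb, g, w, hg, hw, by rw [corr g hg b w hw]⟩
      refine ⟨mins (mpair a (G a)) g₀, fun c w hc0 => ?_, (hg1 _ _).2 ⟨Or.inl rfl, rfl⟩⟩
      obtain ⟨hc, rfl⟩ := (hg1 _ _).1 hc0
      have h1 : ∀ b, r b c → ∃ w' : M, (mpair b w').1 ∈ (mins (mpair a (G a)) g₀).1 := by
        intro b hb
        refine ⟨G b, (hg1 _ _).2 ⟨Or.inr ?_, rfl⟩⟩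
        rcases hc with rfl | hc
        · obtain ⟨g, hg, hw⟩ := ih b hb
          exact (hA b).2 ⟨hT' _ haT b hb, g, _, hg, hw⟩
        · obtain ⟨hcT, g, w, hg, hw⟩ := (hA c).1 hc
          obtain ⟨w', hw'⟩ := (hg c w hw).1 b hb
          exact (hA b).2 ⟨hT' _ hcT b hb, g, _, hg, hw'⟩
      refine ⟨h1, ?_⟩
      rw [hG, mset_eq (key _ c h1 fun b w _ hw => ((hg1 _ _).1 hw).2)]
  refine ⟨G, ?_, fun a => ?_⟩
  · have : D M (fun p : M × M => ∃ g, Ap g ∧ (mpair p.1 p.2).1 ∈ g.1) := by repeat' (first | with_reducible apply app1 hAp | with_reducible apply D.not | with_reducible apply D.and | with_reducible apply D.or | with_reducible apply D.iff | with_reducible apply D.ex | with_reducible apply D.all | with_reducible apply D.imp | with_reducible apply D.subset | with_reducible apply D.mem | with_reducible apply D.eq | with_reducible apply F.pair | with_reducible apply F.up | with_reducible apply F.succ  | with_reducible exact F.const _ | exact F.var 0 | exact F.var 1 | exact F.var 2 | exact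 F.var 3 | exact F.var 4 | exact F.var 5 | exact F.var 6 | exact F.var 7 | exact F.var 8 | exact F.var 9 | exact F.var 10 | exact F.var 11 | exact F.var 12 | exact F.var 13)
    refine this.congr fun p => ⟨fun h => ?_, fun ⟨g, hg, hw⟩ => corr g hg _ _ hw⟩
    obtain ⟨g, hg, hw⟩ := ex p.1
    exact ⟨g, hg, by rw [h]; exact hw⟩
  · obtain ⟨g, hg, hw⟩ := ex a
    have := key g a (hg a _ hw).1 fun b w' _ hw' => corr g hg b w' hw'
    exact ⟨rs g a, this, by rw [hG, mset_eq this]⟩

/-- Choice. -/
theorem exists_fn {A B : M} {Q : M → M → Prop} (hQ : D M (fun p : M × M => Q p.1 p.2))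
    (h : ∀ a : M, a.1 ∈ A.1 → ∃ b : M, b.1 ∈ B.1 ∧ Q a b) :
    ∃ f : M, IsFunc A.1 B.1 f.1 ∧ ∀ a b : M, (mpair a b).1 ∈ f.1 → Q a b := by
  have hS : F M (fun a : M => msep B (Q a)) := F.sep hQ (F.const B)
  have hS' : ∀ a z : M, z.1 ∈ (msep B (Q a)).1 ↔ z.1 ∈ B.1 ∧ Q a z := fun a z => mem_msep hQ a B z
  obtain ⟨𝒜, h𝒜⟩ := image1 hS A
  obtain ⟨c, hc, hc'⟩ := hM.out.choice _ 𝒜.2 (fun S hS h0 => by
    obtain ⟨a, ha, e⟩ := (h𝒜 (el 𝒜 hS)).1 hS
    obtain ⟨b, hb⟩ := h a ha
    have := (hS' a b).2 hb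
    rw [← e] at this
    change b.1 ∈ S at this
    rw [h0] at this
    exact ZFSet.notMem_empty _ this)
  obtain ⟨f, hf, hf'⟩ := sep2 (Q := fun a b => Q a b ∧
    (mpair (msep B (Q a)) b).1 ∈ (⟨c, hc⟩ : M).1) (by repeat' (first | with_reducible apply app2 hQ | with_reducible apply fapp1 hS | with_reducible apply D.not | with_reducible apply D.and | with_reducible apply D.or | with_reducible apply D.iff | with_reducible apply D.ex | with_reducible apply D.all | with_reducible apply D.imp | with_reducible apply D.subset | with_reducible apply D.mem | with_reducible apply D.eq | with_reducible apply F.pair | with_reducible apply F.up | with_reducible apply F.succ  | with_reducible exact F.const _ | exact F.var 0 | exact F.var 1 | exact F.var 2 | exact F.var 3 | exact F.var 4 | exact F.var 5 | exact F.var 6 | exact F.var 7 | exact F.var 8 | exact F.var 9 | exact F.var 10 | exact F.var 11 | exact F.var 12 | exact F.var 13)) A B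
  refine ⟨f, ⟨fun z hz => ?_, fun a ha => ?_⟩, fun a b hab => ((hf' a b).1 hab).2.2.1⟩
  · obtain ⟨x, y, e⟩ := hf (el f hz) hz
    have h1 : (mpair x y).1 ∈ f.1 := by rw [← e]; exact hz
    have h2 : z = pair x.1 y.1 := congrArg Subtype.val e
    rw [h2, pair_mem_prod]
    exact ⟨((hf' x y).1 h1).1, ((hf' x y).1 h1).2.1⟩
  · obtain ⟨b, ⟨hb, hb'⟩, hu⟩ := hc' (msep B (Q (el A ha))).1 ((h𝒜 _).2 ⟨el A ha, ha, rfl⟩)
    have h1 := (hS' _ (el _ hb)).1 hb
    refine ⟨b, (hf' (el A ha) (el _ hb)).2 ⟨ha, h1.1, h1.2, hb'⟩, fun w hw => ?_⟩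
    have hwM : w ∈ M := snd_memM (hM.out.trans _ f.2 _ hw)
    have h2 := (hf' (el A ha) ⟨w, hwM⟩).1 hw
    exact hu w ⟨(hS' _ ⟨w, hwM⟩).2 ⟨h2.2.1, h2.2.2.1⟩, h2.2.2.2⟩

theorem func_mem {a b f x y : ZFSet.{0}} (h : IsFunc a b f) (hxy : pair x y ∈ f) :
    x ∈ a ∧ y ∈ b := pair_mem_prod.1 (h.1 hxy)

theorem func_uniq {a b f x y y' : ZFSet.{0}} (h : IsFunc a b f) (hxy : pair x y ∈ f)
    (hxy' : pair x y' ∈ f) : y = y' := (h.2 x (func_mem h hxy).1).unique hxy hxy'

theorem le_of_rel {A B : M} {Q : M → M → Prop} (hQ : D M (fun p : M × M => Q p.1 p.2))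
    (h : ∀ a : M, a.1 ∈ A.1 → ∃ b : M, b.1 ∈ B.1 ∧ Q a b)
    (h' : ∀ a a' b : M, a.1 ∈ A.1 → a'.1 ∈ A.1 → b.1 ∈ B.1 → Q a b → Q a' b → a = a') :
    LeIn M A.1 B.1 := by
  obtain ⟨f, hf, hf'⟩ := exists_fn hQ h
  refine ⟨f, f.2, hf, fun x y z hx hy => ?_⟩
  have h1 := func_mem hf hx
  have h2 := func_mem hf hy
  exact congrArg Subtype.val (h' (el A h1.1) (el A h2.1) (el B h1.2) h1.1 h2.1 h1.2
    (hf' _ _ hx) (hf' _ _ hy))

theorem LeIn.dest {A B : M} (h : LeIn M A.1 B.1) :
    ∃ f : M, (∀ a : M, a.1 ∈ A.1 → ∃ b : M, b.1 ∈ B.1 ∧ (mpair a b).1 ∈ f.1) ∧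
      (∀ a a' b : M, (mpair a b).1 ∈ f.1 → (mpair a' b).1 ∈ f.1 → a = a') ∧
      f.1 ⊆ (mprod A B).1 := by
  obtain ⟨f, hf, h1, h2⟩ := h
  refine ⟨⟨f, hf⟩, fun a ha => ?_, fun a a' b h h' => Subtype.ext (h2 _ _ _ h h'), fun z hz => ?_⟩
  · obtain ⟨b, hb, -⟩ := h1.2 _ ha
    exact ⟨el B (func_mem h1 hb).2, (func_mem h1 hb).2, hb⟩
  · obtain ⟨a, ha, b, hb, rfl⟩ := mem_prod.1 (h1.1 hz)
    exact (pair_mem_mprod A B (el A ha) (el B hb)).2 ⟨ha, hb⟩

theorem LeIn.trans {A B C : M} (h : LeIn M A.1 B.1) (h' : LeIn M B.1 C.1) : LeIn M A.1 C.1 := by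
  obtain ⟨f, f1, f2, -⟩ := h.dest
  obtain ⟨g, g1, g2, -⟩ := h'.dest
  refine le_of_rel (Q := fun a c => ∃ b : M, (mpair a b).1 ∈ f.1 ∧ (mpair b c).1 ∈ g.1)
    (by repeat' (first | with_reducible apply D.not | with_reducible apply D.and | with_reducible apply D.or | with_reducible apply D.iff | with_reducible apply D.ex | with_reducible apply D.all | with_reducible apply D.imp | with_reducible apply D.subset | with_reducible apply D.mem | with_reducible apply D.eq | with_reducible apply F.pair | with_reducible apply F.up | with_reducible apply F.succ  | with_reducible exact F.const _ | exact F.var 0 | exact F.var 1 | exact F.var 2 | exact F.var 3 | exact F.var 4 | exact F.var 5 | exact F.var 6 | exact F.var 7 | exact F.var 8 | exact F.var 9 | exact F.var 10 | exact F.var 11 | exact F.var 12 | exact F.var 13)) (fun a ha => ?_) ?_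
  · obtain ⟨b, hb, hab⟩ := f1 a ha
    obtain ⟨c, hc, hbc⟩ := g1 b hb
    exact ⟨c, hc, b, hab, hbc⟩
  · rintro a a' c - - - ⟨b, h1, h2⟩ ⟨b', h1', h2'⟩
    obtain rfl := g2 _ _ _ h2 h2'
    exact f2 _ _ _ h1 h1'

theorem le_of_subset {A B : M} (h : A.1 ⊆ B.1) : LeIn M A.1 B.1 :=
  le_of_rel (Q := fun a b => a = b) (by repeat' (first | with_reducible apply D.not | with_reducible apply D.and | with_reducible apply D.or | with_reducible apply D.iff | with_reducible apply D.ex | with_reducible apply D.all | with_reducible apply D.imp | with_reducible apply D.subset | with_reducible apply D.mem | with_reducible apply D.eq | with_reducible apply F.pair | with_reducible apply F.up | with_reducible apply F.succ  | with_reducible exact F.const _ | exact F.var 0 | exact F.var 1 | exact F.var 2 | exact F.var 3 | exact F.var 4 | exact F.var 5 | exact F.var 6 | exact F.var 7 | exact F.var 8 | exact F.var 9 | exact F.var 10 | exact F.var 11 | exact F.var 12 | exact F.var 13)) (fun a ha => ⟨a, h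 ha, rfl⟩)
    fun _ _ _ _ _ _ h h' => h.trans h'.symm

theorem LeIn.prod {A B A' B' : M} (h : LeIn M A.1 A'.1) (h' : LeIn M B.1 B'.1) :
    LeIn M (mprod A B).1 (mprod A' B').1 := by
  obtain ⟨f, f1, f2, -⟩ := h.dest
  obtain ⟨g, g1, g2, -⟩ := h'.dest
  refine le_of_rel (Q := fun z z' => ∃ a b a' b' : M, z = mpair a b ∧ z' = mpair a' b' ∧
    (mpair a a').1 ∈ f.1 ∧ (mpair b b').1 ∈ g.1) (by repeat' (first | with_reducible apply D.not | with_reducible apply D.and | with_reducible apply D.or | with_reducible apply D.iff | with_reducible apply D.ex | with_reducible apply D.all | with_reducible apply D.imp | with_reducible apply D.subset | with_reducible apply D.mem | with_reducible apply D.eq | with_reducible apply F.pair | with_reducible apply F.up | with_reducible apply F.succ  | with_reducible exact F.const _ | exact F.var 0 | exact F.var 1 | exact F.var 2 | exact F.var 3 | exact F.var 4 | exact F.var 5 | exact F.var 6 | exact F.var 7 | exact F.var 8 | exact F.var 9 | exact F.var 10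 | exact F.var 11 | exact F.var 12 | exact F.var 13)) (fun z hz => ?_) ?_
  · obtain ⟨a, b, ha, hb, rfl⟩ := (mem_mprod _ _ _).1 hz
    obtain ⟨a', ha', h1⟩ := f1 a ha
    obtain ⟨b', hb', h2⟩ := g1 b hb
    exact ⟨mpair a' b', (pair_mem_mprod _ _ _ _).2 ⟨ha', hb'⟩, a, b, a', b', rfl, rfl, h1, h2⟩
  · rintro _ _ _ - - - ⟨a, b, a', b', rfl, rfl, h1, h2⟩ ⟨c, d, c', d', rfl, e, h3, h4⟩
    obtain ⟨rfl, rfl⟩ := mpair_inj.1 e
    rw [f2 _ _ _ h1 h3, g2 _ _ _ h2 h4]

/-- A union of `|C|` many sets of size at most `|B|`. -/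
theorem union_le {A B C : M} {Q : M → M → Prop} (hQ : D M (fun p : M × M => Q p.1 p.2))
    (h : ∀ a : M, a.1 ∈ A.1 → ∃ q : M, q.1 ∈ C.1 ∧ Q q a)
    (h' : ∀ q : M, q.1 ∈ C.1 → ∀ S : M, (∀ a : M, a.1 ∈ S.1 ↔ a.1 ∈ A.1 ∧ Q q a) →
      LeIn M S.1 B.1) : LeIn M A.1 (mprod C B).1 := by
  obtain ⟨P, hP⟩ := exists_pow (mprod A B)
  obtain ⟨c, hc, hc'⟩ := exists_fn (A := C) (B := P) (Q := fun q i =>
    (∀ a : M, a.1 ∈ A.1 → Q q a → ∃ b : M, b.1 ∈ B.1 ∧ (mpair a b).1 ∈ i.1) ∧
    ∀ a a' b : M, (mpair a b).1 ∈ i.1 → (mpair a' b).1 ∈ i.1 → a = a') (by repeat' (first | with_reducible apply app2 hQ | with_reducible apply D.not | with_reducible apply D.and | with_reducible apply D.or | with_reducible apply D.iff | with_reducible apply D.ex | with_reducible apply D.all | with_reducible apply D.imp | with_reducible apply D.subset | with_reducible apply D.mem | with_reducible apply D.eq | with_reducible apply F.pair | with_reducible apply F.up | with_reducible apply F.succ  | with_reducible exact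 F.const _ | exact F.var 0 | exact F.var 1 | exact F.var 2 | exact F.var 3 | exact F.var 4 | exact F.var 5 | exact F.var 6 | exact F.var 7 | exact F.var 8 | exact F.var 9 | exact F.var 10 | exact F.var 11 | exact F.var 12 | exact F.var 13))
    (fun q hq => by
      obtain ⟨S, hS⟩ := sep1 (Q := fun a => Q q a) (by repeat' (first | with_reducible apply app2 hQ | with_reducible apply D.not | with_reducible apply D.and | with_reducible apply D.or | with_reducible apply D.iff | with_reducible apply D.ex | with_reducible apply D.all | with_reducible apply D.imp | with_reducible apply D.subset | with_reducible apply D.mem | with_reducible apply D.eq | with_reducible apply F.pair | with_reducible apply F.up | with_reducible apply F.succ  | with_reducible exact F.const _ | exact F.var 0 | exact F.var 1 | exact F.var 2 | exact F.var 3 | exact F.var 4 | exact F.var 5 | exact F.var 6 | exact F.var 7 | exact F.var 8 | exact F.var 9 | exact F.var 10 | exact F.var 11 | exact F.var 12 | exact F.var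 13)) A
      obtain ⟨i, i1, i2, i3⟩ := (h' q hq S hS).dest
      refine ⟨i, (hP i).2 fun z hz => ?_, fun a ha hqa => i1 a ((hS a).2 ⟨ha, hqa⟩), i2⟩
      obtain ⟨a, b, ha, hb, e⟩ := (mem_mprod S B (el i hz)).1 (i3 hz)
      exact (mem_mprod A B (el i hz)).2 ⟨a, b, ((hS a).1 ha).1, hb, e⟩)
  refine le_of_rel (Q := fun a z => ∃ q b i : M, z = mpair q b ∧ (mpair q i).1 ∈ c.1 ∧
    (mpair a b).1 ∈ i.1) (by repeat' (first | with_reducible apply D.not | with_reducible apply D.and | with_reducible apply D.or | with_reducible apply D.iff | with_reducible apply D.ex | with_reducible apply D.all | with_reducible apply D.imp | with_reducible apply D.subset | with_reducible apply D.mem | with_reducible apply D.eq | with_reducible apply F.pair | with_reducible apply F.up | with_reducible apply F.succ  | with_reducible exact F.const _ | exact F.var 0 | exact F.var 1 | exact F.var 2 | exact F.var 3 | exact F.var 4 | exact F.var 5 | exact F.var 6 | exact F.var 7 | exact F.var 8 | exact F.var 9 | exact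 F.var 10 | exact F.var 11 | exact F.var 12 | exact F.var 13)) (fun a ha => ?_) ?_
  · obtain ⟨q, hq, hqa⟩ := h a ha
    obtain ⟨i, hi, -⟩ := hc.2 _ hq
    have hiP := (func_mem hc hi).2
    obtain ⟨b, hb, hab⟩ := (hc' q (el P hiP) hi).1 a ha hqa
    exact ⟨mpair q b, (pair_mem_mprod _ _ _ _).2 ⟨hq, hb⟩, q, b, el P hiP, rfl, hi, hab⟩
  · rintro a a' _ - - - ⟨q, b, i, rfl, h1, h2⟩ ⟨q', b', i', e, h1', h2'⟩
    obtain ⟨rfl, rfl⟩ := mpair_inj.1 e
    obtain rfl : i = i' := Subtype.ext (func_uniq hc h1 h1')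
    exact (hc' _ _ h1).2 _ _ _ h2 h2'

end Pool.Agent.H926Z.WK
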